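import Pool.Agent.FRT.P2
import Pool.Agent.FRB.X4M

/-!
# Mixed extensions of characteristic `p`: towers
-/

set_option autoImplicit false

namespace Pool.Agent.FRT

open Polynomial Pool.Agent.TBR Pool.Agent.TUQ Pool.Agent.UQ Pool.Agent.WLD Pool.Agent.ADT
  Pool.Agent.ADH Pool.Agent.FRB

universe u

section

variable {k M : Type u} [Field k] [Field M] [Algebra k M]

/-- **Towers.** `z ^ N = (G / q ^ m) ^ p + H / q ^ p`, `φ(z') = f / q ^ p` for `z' ∈ S`. -/
theorem tower_injP [IsAlgClosed M] (p : ℕ) [Fact p.Prime] [CharP k p] (hp3 : 3 ≤ p)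
    (htd : Algebra.trdeg k M = 2) (x : Fin 3 → M)
    (hal : ∀ y : M, IsAlgebraic (IntermediateField.adjoin k (Set.range x)) y)
    (g G H q : MvPolynomial (Fin 3) k) (hg0 : g ≠ 0) (hg : MvPolynomial.aeval x g = 0)
    (ω : Fin 3 → ℕ) (N m υ γ τ d D : ℕ) (hN : 2 ≤ N) (hNk : (N : k) ≠ 0) (hm : 1 ≤ m) (hmp : m ≤ p)
    (z : M) (z0 : z ≠ 0) (hq : MvPolynomial.aeval x q ≠ 0)
    (hz : z ^ N * MvPolynomial.aeval x q ^ (p * m) =
      MvPolynomial.aeval x G ^ p + MvPolynomial.aeval x q ^ (p * (m - 1)) * MvPolynomial.aeval x H)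
    (h0 : MvPolynomial.weightedTotalDegree ω g ≤ d)
    (hτ : MvPolynomial.weightedTotalDegree ω q ≤ τ)
    (hG : (p - m) * τ + N * (p - 1) * υ + MvPolynomial.weightedTotalDegree ω G ≤ D)
    (hH : MvPolynomial.weightedTotalDegree ω H ≤ D) (hγ : p * γ ≤ D)
    (hQ : (p - 1) * (τ + N * υ) + γ ≤ D) (hQ' : p * (τ + N * υ) + 1 ≤ D)
    (h6 : d + D ≤ ω 0 + ω 1 + ω 2 + υ + γ) (S : Finset M)
    (hS : ∀ z ∈ S, ∃ (φ : k[X]) (f : MvPolynomial (Fin 3) k), AddPoly φ ∧ derivative φ ≠ 0 ∧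
      MvPolynomial.weightedTotalDegree ω f + p * N * υ ≤ D ∧
        aeval z φ * MvPolynomial.aeval x q ^ p = MvPolynomial.aeval x f)
    (hirr : ∀ C₀ : Finset M, (∀ c ∈ C₀, IsAlgebraic k c) →
      ∀ zK : z ^ N ∈ IntermediateField.adjoin k (C₀ : Set M) ⊔
        IntermediateField.adjoin k (Set.range x),
        Irreducible (X ^ N - C (⟨z ^ N, zK⟩ : (IntermediateField.adjoin k (C₀ : Set M) ⊔
          IntermediateField.adjoin k (Set.range x) : IntermediateField k M))))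
    (hemt : ∀ C₀ : Finset M, (∀ c ∈ C₀, IsAlgebraic k c) → (∀ ζ : M, ζ ^ N = 1 → ζ ∈ C₀) →
      Emt (IntermediateField.adjoin k (C₀ : Set M) ⊔ IntermediateField.adjoin k (Set.range x)))
    (hemt' : ∀ C₀ : Finset M, (∀ c ∈ C₀, IsAlgebraic k c) → (∀ ζ : M, ζ ^ N = 1 → ζ ∈ C₀) →
      ∀ (Y : M) (f : MvPolynomial (Fin 3) (IntermediateField.adjoin k (C₀ : Set M))),
        MvPolynomial.weightedTotalDegree ω f + p * N * υ ≤ D →
        (Y ^ p - Y) * MvPolynomial.aeval x q ^ p = MvPolynomial.aeval x f →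
        Emt (KZ (IntermediateField.adjoin k (C₀ : Set M) ⊔
          IntermediateField.adjoin k (Set.range x)) Y))
    (F : IntermediateField k M)
    (hF : F ≤ IntermediateField.adjoin k (Set.range x ∪ insert z (S : Set M)))
    (hFal : ∀ y : M, IsAlgebraic F y) : Emt F := by
  classical
  have hCM : CharP M p := charP_of_injective_algebraMap (algebraMap k M).injective p
  have hpN : p * N * υ + 1 ≤ D := by
    refine le_trans (Nat.add_le_add_right ?_ 1) hQ'
    rw [mul_assoc]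
    exact Nat.mul_le_mul_left p (Nat.le_add_left _ _)
  have hS' : ∀ z ∈ S, ∃ (φ : k[X]) (f : MvPolynomial (Fin 3) k), AddPoly φ ∧
      derivative φ ≠ 0 ∧ MvPolynomial.weightedTotalDegree ω f ≤ D - p * N * υ ∧
        aeval z φ * MvPolynomial.aeval x q ^ p = MvPolynomial.aeval x f := by
    intro z hz
    obtain ⟨φ, f, a1, a2, a3, a4⟩ := hS z hz
    exact ⟨φ, f, a1, a2, Nat.le_sub_of_add_le a3, a4⟩
  obtain ⟨C₀, r, y, hC₀, hμC, hy, hz'⟩ := exists_spanμ p x q hq ω p (D - p * N * υ) S hS' N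
    (by omega)
  choose f hf hfy using hy
  obtain ⟨E, hE⟩ : ∃ E, E = IntermediateField.adjoin k (C₀ : Set M) := ⟨_, rfl⟩
  rw [← hE] at hz'
  subst hE
  have hxfg : (IntermediateField.adjoin k (Set.range x) : IntermediateField k M).FG :=
    ⟨Finset.univ.image x, by rw [Finset.coe_image, Finset.coe_univ, Set.image_univ]⟩
  have hyfg : (IntermediateField.adjoin k (Set.range y) : IntermediateField k M).FG :=
    ⟨Finset.univ.image y, by rw [Finset.coe_image, Finset.coe_univ, Set.image_univ]⟩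
  have hEfg : (IntermediateField.adjoin k (C₀ : Set M)).FG := ⟨C₀, rfl⟩
  have hEalg : Algebra.IsAlgebraic k (IntermediateField.adjoin k (C₀ : Set M)) :=
    IntermediateField.isAlgebraic_adjoin fun c hc => (hC₀ c hc).isIntegral
  have hEtd : Algebra.trdeg k (IntermediateField.adjoin k (C₀ : Set M)) = 0 :=
    trdeg_eq_zero_iff.2 hEalg
  obtain ⟨K₀, hK₀⟩ : ∃ K₀, K₀ = IntermediateField.adjoin k (C₀ : Set M) ⊔
    IntermediateField.adjoin k (Set.range x) := ⟨_, rfl⟩
  have hK₀fg : K₀.FG := by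
    rw [hK₀]
    exact IntermediateField.fg_sup hEfg hxfg
  have hxK₀ : IntermediateField.adjoin k (Set.range x) ≤ K₀ := by
    rw [hK₀]
    exact le_sup_right
  have hK₀al : ∀ y : M, IsAlgebraic K₀ y := fun y => alg_le hxK₀ (hal y)
  have hmap : ∀ P : MvPolynomial (Fin 3) k, MvPolynomial.aeval x (MvPolynomial.map (algebraMap k
      (IntermediateField.adjoin k (C₀ : Set M))) P) = MvPolynomial.aeval x P := fun P =>
    MvPolynomial.aeval_map_algebraMap _ x P
  have hqE := hmap q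
  have hgE : MvPolynomial.aeval x (MvPolynomial.map (algebraMap k
      (IntermediateField.adjoin k (C₀ : Set M))) g) = 0 :=
    (MvPolynomial.aeval_map_algebraMap _ x g).trans hg
  have hgE0 : MvPolynomial.map (algebraMap k
      (IntermediateField.adjoin k (C₀ : Set M))) g ≠ 0 := by
    intro h
    exact hg0 (MvPolynomial.map_injective _ (algebraMap k _).injective (by rw [h, map_zero]))
  have hmw : ∀ (P : MvPolynomial (Fin 3) k) (n : ℕ), MvPolynomial.weightedTotalDegree ω P ≤ n →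
      MvPolynomial.weightedTotalDegree ω (MvPolynomial.map (algebraMap k
        (IntermediateField.adjoin k (C₀ : Set M))) P) ≤ n := by
    intro P n hP
    rw [wtd_le_iff]
    intro m hm
    exact (wtd_le_iff ω P _).1 hP m (MvPolynomial.support_map_subset _ _ hm)
  have hqK₀ : MvPolynomial.aeval x q ∈ K₀ := by
    rw [hK₀, ← hqE]
    exact aeval_mem_sup _ x _
  have hyK₀ : ∀ i, y i ^ p - y i ∈ K₀ := by
    intro i
    have h7 : y i ^ p - y i = MvPolynomial.aeval x (f i) / MvPolynomial.aeval x q ^ p := by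
      rw [eq_div_iff (pow_ne_zero _ hq), hfy i]
    rw [h7]
    refine div_mem ?_ (pow_mem hqK₀ _)
    rw [hK₀]
    exact aeval_mem_sup _ x _
  -- the big field
  obtain ⟨K₁, hK₁⟩ : ∃ K₁, K₁ = KZ K₀ z := ⟨_, rfl⟩
  have hK₀₁ : K₀ ≤ K₁ := by
    rw [hK₁]
    exact le_sup_left
  have hzK₁ : z ∈ K₁ := by
    rw [hK₁]
    exact (le_sup_right : IntermediateField.adjoin k {z} ≤ _)
      (IntermediateField.mem_adjoin_simple_self k z)
  have hK₁fg : K₁.FG := by
    rw [hK₁]
    exact IntermediateField.fg_sup hK₀fg ⟨{z}, by rw [Finset.coe_singleton]⟩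
  have hK₁al : ∀ y : M, IsAlgebraic K₁ y := fun y => alg_le hK₀₁ (hK₀al y)
  have hyK₁ : ∀ i, y i ^ p - y i ∈ K₁ := fun i => hK₀₁ (hyK₀ i)
  have hK'fg : (K₁ ⊔ IntermediateField.adjoin k (Set.range y) : IntermediateField k M).FG :=
    IntermediateField.fg_sup hK₁fg hyfg
  have hFK' : F ≤ K₁ ⊔ IntermediateField.adjoin k (Set.range y) := by
    refine hF.trans ?_
    rw [IntermediateField.adjoin_le_iff]
    rintro u (hu | rfl | hu)
    · exact (le_sup_left : K₁ ≤ _) (hK₀₁ (hxK₀ (IntermediateField.subset_adjoin _ _ hu)))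
    · exact (le_sup_left : K₁ ≤ _) hzK₁
    · have h7 := hz' u hu
      rw [← hK₀] at h7
      exact (sup_le_sup_right hK₀₁ _) h7
  refine emt_of_inj (K' := K₁ ⊔ IntermediateField.adjoin k (Set.range y)) (ι := Fin r → ZMod p)
    (fun ℓ hℓ => vl_res F _ hFK' hK'fg hFal hℓ) _
    (fun ℓ hℓ _ => ea_inj K₁ hK₁fg hK₁al p y hyK₁ hℓ) fun c => ?_
  -- the cyclic case
  show Emt (K₁ ⊔ IntermediateField.adjoin k {∑ i, ((c i).val : M) * y i})
  have hY := comb_eq p (fun i => (c i).val) y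
  set Y := ∑ i, ((c i).val : M) * y i with hYdef
  have hYa : aeval Y (X ^ p - X : k[X]) = Y ^ p - Y := by
    rw [map_sub, map_pow, aeval_X]
  have hYK₀' : Y ^ p - Y ∈ K₀ := by
    rw [hY]
    exact sum_mem fun i _ => mul_mem (natCast_mem K₀ _) (hyK₀ i)
  have hYK₀ : aeval Y (X ^ p - X : k[X]) ∈ K₀ := by
    rw [hYa]
    exact hYK₀'
  have hpK₀ : ∀ P : MvPolynomial (Fin 3) k, MvPolynomial.aeval x P ∈ K₀ := by
    intro P
    rw [hK₀, ← hmap P]
    exact aeval_mem_sup _ x _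
  have hzK₀ : z ^ N ∈ K₀ := by
    have h7 : z ^ N = (MvPolynomial.aeval x G ^ p +
        MvPolynomial.aeval x q ^ (p * (m - 1)) * MvPolynomial.aeval x H) /
          MvPolynomial.aeval x q ^ (p * m) := by
      rw [eq_div_iff (pow_ne_zero _ hq), hz]
    rw [h7]
    exact div_mem (add_mem (pow_mem (hpK₀ G) _) (mul_mem (pow_mem hqK₀ _) (hpK₀ H)))
      (pow_mem hqK₀ _)
  have hμ : ∀ ζ : M, ζ ^ N = 1 → ζ ∈ K₀ := by
    intro ζ hζ
    rw [hK₀]
    exact (le_sup_left : IntermediateField.adjoin k (C₀ : Set M) ≤ _)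
      (IntermediateField.subset_adjoin _ _ (hμC ζ hζ))
  have hfY : (Y ^ p - Y) * MvPolynomial.aeval x q ^ p = MvPolynomial.aeval x
      (∑ i, ((c i).val : IntermediateField.adjoin k (C₀ : Set M)) • f i) := by
    rw [hY, map_sum, Finset.sum_mul]
    refine Finset.sum_congr rfl fun i _ => ?_
    rw [mul_assoc, hfy i, map_smul, Algebra.smul_def, map_natCast]
  have hfw : MvPolynomial.weightedTotalDegree ω
      (∑ i, ((c i).val : IntermediateField.adjoin k (C₀ : Set M)) • f i) ≤ D - p * N * υ := by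
    rw [wtd_le_iff]
    intro d hd
    obtain ⟨i, -, hi⟩ := Finset.mem_biUnion.1 (MvPolynomial.support_sum hd)
    exact (wtd_le_iff ω (f i) _).1 (hf i) d (MvPolynomial.support_smul hi)
  have htr : Algebra.trdeg k (IntermediateField.adjoin k (C₀ : Set M)) + ((3 : ℕ) : Cardinal.{u}) =
      3 := by
    rw [hEtd]
    norm_num
  have hsum : d + D ≤ ∑ i, ω i + υ + γ := by
    rw [Fin.sum_univ_three]
    exact h6
  have hfw' : MvPolynomial.weightedTotalDegree ω
      (∑ i, ((c i).val : IntermediateField.adjoin k (C₀ : Set M)) • f i) + p * N * υ ≤ D := by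
    omega
  have irrZ : Irreducible (X ^ N - C (⟨z ^ N, hzK₀⟩ : K₀)) := by
    subst hK₀
    exact hirr C₀ hC₀ hzK₀
  have hfamP : FamP K₀ Y z p N := by
    refine ⟨3, IntermediateField.adjoin k (C₀ : Set M), x, MvPolynomial.map (algebraMap k _) g,
      MvPolynomial.map (algebraMap k _) G, MvPolynomial.map (algebraMap k _) H,
      MvPolynomial.map (algebraMap k _) q,
      ∑ i, ((c i).val : IntermediateField.adjoin k (C₀ : Set M)) • f i,
      ω, m, υ, γ, τ, d, D, hEfg, hK₀, htr, hgE0, hgE, ?_, hm, hmp, ?_, ?_, hmw _ _ h0,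
      hmw _ _ hτ, ?_, hmw _ _ hH, hfw', hγ, hQ, hQ', hsum⟩
    · rw [hqE]
      exact hq
    · rw [hmap q, hmap G, hmap H]
      exact hz
    · rw [hqE]
      exact hfY
    · exact le_trans (Nat.add_le_add_left (hmw G _ le_rfl) _) hG
  have e1 : Emt K₀ := by
    rw [hK₀]
    exact hemt C₀ hC₀ hμC
  have e2 : Emt (KZ K₀ Y) := by
    rw [hK₀]
    exact hemt' C₀ hC₀ hμC Y _ hfw' hfY
  have e3 : Emt (KZ K₀ z) :=
    emt_Z p hp3 K₀ hK₀fg htd hK₀al N (by omega) hNk Y z hzK₀ z0 irrZ hfamP e1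
  have e4 := emt_cyclicP p K₀ hK₀fg htd hK₀al N hN hNk hμ Y z hYK₀' hzK₀ z0 irrZ hfamP e1 e2 e3
  have e5 : (K₁ ⊔ IntermediateField.adjoin k {Y} : IntermediateField k M) = KYZ K₀ Y z := by
    rw [hK₁]
    show (K₀ ⊔ IntermediateField.adjoin k {z}) ⊔ IntermediateField.adjoin k {Y} =
      (K₀ ⊔ IntermediateField.adjoin k {Y}) ⊔ IntermediateField.adjoin k {z}
    rw [sup_right_comm]
  rw [e5]
  exact e4

end

end Pool.Agent.FRT
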