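import Pool.Agent.KTW.E4

/-!
# `X ^ 2 - z ^ 2` is irreducible over the field of the plane, `(z h ^ 3) ^ 2` a cubic polynomial
-/

set_option autoImplicit false

namespace Pool.Agent.FRT

open Polynomial Pool.Agent.TBR Pool.Agent.TUQ Pool.Agent.UQ Pool.Agent.WLD Pool.Agent.ADT
  Pool.Agent.KTW

universe u

/-- a polynomial of degree three in the first variable is not a square -/
theorem no_sq_cubic {E : Type u} [Field E] (b₂ b₄ b₆ : E[X]) (r t : MvPolynomial (Fin 2) E)
    (ht : t ≠ 0)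
    (h : r ^ 2 = t ^ 2 * (MvPolynomial.X 0 ^ 3 + aeval (MvPolynomial.X 1) b₂ *
      MvPolynomial.X 0 ^ 2 + aeval (MvPolynomial.X 1) b₄ * MvPolynomial.X 0 +
      aeval (MvPolynomial.X 1) b₆)) : False := by
  obtain ⟨φ, hφ⟩ : ∃ φ, φ = MvPolynomial.finSuccEquiv E 1 := ⟨_, rfl⟩
  have h0 : φ (MvPolynomial.X 0) = X := by
    rw [hφ]
    exact MvPolynomial.finSuccEquiv_X_zero
  have h1 : φ (MvPolynomial.X 1) = C (MvPolynomial.X 0) := by
    rw [hφ]
    exact MvPolynomial.finSuccEquiv_X_succ (j := (0 : Fin 1))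
  have hq : ∀ q : E[X], ∃ c, φ (aeval (MvPolynomial.X 1) q) = C c := by
    intro q
    rw [← AlgEquiv.coe_toAlgHom, ← Polynomial.aeval_algHom_apply, AlgEquiv.coe_toAlgHom, h1]
    refine ⟨aeval (MvPolynomial.X 0) q, ?_⟩
    exact Polynomial.aeval_algebraMap_apply (R := E) (A := MvPolynomial (Fin 1) E)
      (MvPolynomial (Fin 1) E)[X] (MvPolynomial.X 0) q
  obtain ⟨c₂, e₂⟩ := hq b₂
  obtain ⟨c₄, e₄⟩ := hq b₄
  obtain ⟨c₆, e₆⟩ := hq b₆
  have h3 := congrArg φ h
  simp only [map_pow, map_mul, map_add, h0, e₂, e₄, e₆] at h3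
  have hc : (X ^ 3 + C c₂ * X ^ 2 + C c₄ * X + C c₆ :
      (MvPolynomial (Fin 1) E)[X]).natDegree = 3 := by
    have := natDegree_cubic (a := (1 : MvPolynomial (Fin 1) E)) (b := c₂) (c := c₄) (d := c₆)
      one_ne_zero
    rwa [C_1, one_mul] at this
  have ht' : φ t ≠ 0 := fun h => ht (φ.injective (by rw [h, map_zero]))
  have hc0 : (X ^ 3 + C c₂ * X ^ 2 + C c₄ * X + C c₆ : (MvPolynomial (Fin 1) E)[X]) ≠ 0 := by
    intro h
    rw [h, natDegree_zero] at hc
    exact absurd hc (by norm_num)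
  have h4 := congrArg natDegree h3
  rw [natDegree_mul (pow_ne_zero _ ht') hc0, natDegree_pow, natDegree_pow, hc] at h4
  omega

variable {k M : Type u} [Field k] [Field M] [Algebra k M]

/-- **Irreducibility.** -/
theorem irr_T3 (htd : Algebra.trdeg k M = 2)
    (b₂ b₄ b₆ h : k[X]) (x y s z : M)
    (heq : y ^ 2 = x ^ 3 + aeval s b₂ * x ^ 2 + aeval s b₄ * x + aeval s b₆)
    (hyz : y = z * aeval s h ^ 3)
    (hal : ∀ b : M, IsAlgebraic (IntermediateField.adjoin k
      (Set.range ![aeval s h * x, s, 0])) b)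
    (C₀ : Finset M) (hC₀ : ∀ c ∈ C₀, IsAlgebraic k c)
    (zK : z ^ 2 ∈ IntermediateField.adjoin k (C₀ : Set M) ⊔
      IntermediateField.adjoin k (Set.range ![aeval s h * x, s, 0])) :
    Irreducible (X ^ 2 - C (⟨z ^ 2, zK⟩ : (IntermediateField.adjoin k (C₀ : Set M) ⊔
      IntermediateField.adjoin k (Set.range ![aeval s h * x, s, 0]) :
        IntermediateField k M))) := by
  obtain ⟨E, hE⟩ : ∃ E, E = IntermediateField.adjoin k (C₀ : Set M) := ⟨_, rfl⟩
  have hEalg : Algebra.IsAlgebraic k E := by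
    rw [hE]
    exact IntermediateField.isAlgebraic_adjoin fun c hc => (hC₀ c hc).isIntegral
  have hEtd : Algebra.trdeg k E = 0 := trdeg_eq_zero_iff.2 hEalg
  rw [X_pow_sub_C_irreducible_iff_of_prime Nat.prime_two]
  intro b hb
  have hb' : (b : M) ^ 2 = z ^ 2 := congrArg Subtype.val hb
  obtain ⟨ξ, hξ⟩ : ∃ ξ : Fin 2 → M, ξ = ![x, s] := ⟨_, rfl⟩
  have ξ0 : ξ 0 = x := by rw [hξ]; rfl
  have ξ1 : ξ 1 = s := by rw [hξ]; rfl
  have hxm : x ∈ IntermediateField.adjoin k (Set.range ξ) := by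
    rw [← ξ0]
    exact IntermediateField.subset_adjoin _ _ ⟨0, rfl⟩
  have hsm : s ∈ IntermediateField.adjoin k (Set.range ξ) := by
    rw [← ξ1]
    exact IntermediateField.subset_adjoin _ _ ⟨1, rfl⟩
  have hpm : ∀ q : k[X], aeval s q ∈ IntermediateField.adjoin k (Set.range ξ) := by
    intro q
    have h1 : aeval s q ∈ Algebra.adjoin k ({s} : Set M) :=
      Polynomial.aeval_mem_adjoin_singleton k s
    have h3 : Algebra.adjoin k ({s} : Set M) ≤
        (IntermediateField.adjoin k (Set.range ξ)).toSubalgebra :=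
      Algebra.adjoin_le (by simpa using hsm)
    exact h3 h1
  have hle : IntermediateField.adjoin k (Set.range ![aeval s h * x, s, 0]) ≤
      IntermediateField.adjoin k (Set.range ξ) := by
    rw [IntermediateField.adjoin_le_iff]
    rintro _ ⟨i, rfl⟩
    fin_cases i
    · exact mul_mem (hpm h) hxm
    · exact hsm
    · exact zero_mem _
  have hind : AlgebraicIndependent E ξ := by
    refine indep_plane htd E hEtd ξ fun y => ?_
    exact alg_le (hle.trans le_sup_right) (hal y)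
  have hinj : Function.Injective (MvPolynomial.aeval ξ : MvPolynomial (Fin 2) E →ₐ[E] M) := hind
  -- `b h ^ 3` is in `E(x, s)`
  have hK' : ∀ c ∈ IntermediateField.adjoin k (C₀ : Set M) ⊔
      IntermediateField.adjoin k (Set.range ![aeval s h * x, s, 0]),
      c ∈ IntermediateField.adjoin E (Set.range ξ) := by
    have h1 : IntermediateField.adjoin k (C₀ : Set M) ⊔
        IntermediateField.adjoin k (Set.range ![aeval s h * x, s, 0]) ≤
        (IntermediateField.adjoin E (Set.range ξ)).restrictScalars k := by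
      rw [← hE]
      refine sup_le (fun c hc => ?_) (hle.trans ?_)
      · exact (IntermediateField.adjoin E (Set.range ξ)).algebraMap_mem ⟨c, hc⟩
      · rw [IntermediateField.adjoin_le_iff]
        exact IntermediateField.subset_adjoin E (Set.range ξ)
    exact fun c hc => h1 hc
  have hsK : s ∈ IntermediateField.adjoin E (Set.range ξ) := by
    rw [← ξ1]
    exact IntermediateField.subset_adjoin _ _ ⟨1, rfl⟩
  have hhK : aeval s h ∈ IntermediateField.adjoin E (Set.range ξ) := by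
    have h1 : aeval s h ∈ Algebra.adjoin E ({s} : Set M) := by
      have h5 := Polynomial.aeval_mem_adjoin_singleton E s (p := h.map (algebraMap k E))
      rwa [aeval_map_algebraMap] at h5
    have h3 : Algebra.adjoin E ({s} : Set M) ≤
        (IntermediateField.adjoin E (Set.range ξ)).toSubalgebra :=
      Algebra.adjoin_le (by simpa using hsK)
    exact h3 h1
  obtain ⟨B, hB⟩ : ∃ B, B = (b : M) * aeval s h ^ 3 := ⟨_, rfl⟩
  have hBm : B ∈ IntermediateField.adjoin E (Set.range ξ) := by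
    rw [hB]
    exact mul_mem (hK' _ b.2) (pow_mem hhK 3)
  have hBsq : B ^ 2 = x ^ 3 + aeval s b₂ * x ^ 2 + aeval s b₄ * x + aeval s b₆ := by
    rw [← heq, hyz, hB, mul_pow, mul_pow, hb']
  obtain ⟨r, t, ht0, hrt⟩ : ∃ r t : MvPolynomial (Fin 2) E, t ≠ 0 ∧
      MvPolynomial.aeval ξ r = B * MvPolynomial.aeval ξ t := by
    obtain ⟨r, t, hrt⟩ := (IntermediateField.mem_adjoin_range_iff E ξ B).1 hBm
    by_cases ht : MvPolynomial.aeval ξ t = 0
    · refine ⟨0, 1, one_ne_zero, ?_⟩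
      rw [ht, div_zero] at hrt
      rw [map_zero, hrt, zero_mul]
    · refine ⟨r, t, fun h => ht (by rw [h, map_zero]), ?_⟩
      rw [hrt, div_mul_cancel₀ _ ht]
  have hX1 : ∀ q : k[X], MvPolynomial.aeval ξ
      (aeval (MvPolynomial.X 1 : MvPolynomial (Fin 2) E) (q.map (algebraMap k E))) =
        aeval s q := by
    intro q
    rw [← Polynomial.aeval_algHom_apply, MvPolynomial.aeval_X, ξ1, aeval_map_algebraMap]
  refine no_sq_cubic (b₂.map (algebraMap k E)) (b₄.map (algebraMap k E))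
    (b₆.map (algebraMap k E)) r t ht0 (hinj ?_)
  simp only [map_pow, map_mul, map_add, hX1, MvPolynomial.aeval_X, ξ0]
  rw [hrt, mul_pow, hBsq, mul_comm]

/-- **Irreducibility**, in terms of `X₀ = q x`. -/
theorem irr_P4a (htd : Algebra.trdeg k M = 2) (X₀ t z : M)
    (hal : ∀ b : M, IsAlgebraic (IntermediateField.adjoin k (Set.range ![X₀, t, 0])) b)
    (q a b c : k[X]) (hq : aeval t q ≠ 0)
    (hz : z ^ 2 * aeval t q ^ 9 =
      X₀ ^ 3 + aeval t q ^ 6 * (aeval t a * X₀ ^ 2 + aeval t b * X₀ + aeval t c))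
    (C₀ : Finset M) (hC : ∀ c ∈ C₀, IsAlgebraic k c)
    (zK : z ^ 2 ∈ IntermediateField.adjoin k (C₀ : Set M) ⊔
      IntermediateField.adjoin k (Set.range ![X₀, t, 0])) :
    Irreducible (X ^ 2 - C (⟨z ^ 2, zK⟩ : (IntermediateField.adjoin k (C₀ : Set M) ⊔
      IntermediateField.adjoin k (Set.range ![X₀, t, 0]) : IntermediateField k M))) := by
  obtain ⟨x, hx⟩ : ∃ x, X₀ = aeval t q * x := ⟨X₀ / aeval t q, by
    rw [mul_div_cancel₀ _ hq]⟩
  subst hx
  refine irr_T3 htd (a * q ^ 5) (b * q ^ 4) (c * q ^ 3) q x (z * aeval t q ^ 3) t z ?_ rfl hal C₀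
    hC zK
  simp only [map_mul, map_pow]
  apply mul_left_cancel₀ (pow_ne_zero 3 hq)
  linear_combination hz

end Pool.Agent.FRT
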