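import Pool.Agent.ADT.T3
import Pool.Agent.ADH.T9c
import Pool.Agent.FRT.P3
import Pool.Agent.FRT.P4a

/-!
# Elliptic curves `y ^ 2 = x ^ 3 + ε h ^ 5 x ^ 2 + h ^ 4 f x + h ^ 3 g` of characteristic three: towers
-/

set_option autoImplicit false

namespace Pool.Agent.FRT

open Polynomial Pool.Agent.TUQ Pool.Agent.WLD Pool.Agent.ADT Pool.Agent.UQ WeierstrassCurve
  WeierstrassCurve.Affine Pool.Agent.EFF Pool.Agent.ADH Pool.Agent.FRB

open scoped Classical

/-- polynomials in an element of a field -/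
theorem aeval_memF {k M : Type} [Field k] [Field M] [Algebra k M] (B : IntermediateField k M)
    (s : M) (hs : s ∈ B) (F : k[X]) : aeval s F ∈ B := by
  have h1 : aeval s F ∈ Algebra.adjoin k ({s} : Set M) :=
    Polynomial.aeval_mem_adjoin_singleton k s
  have h2 : Algebra.adjoin k ({s} : Set M) ≤ B.toSubalgebra :=
    Algebra.adjoin_le (by simpa using hs)
  exact h2 h1

/-- the solutions of `φ(z) h(s) ^ 3 = F(s)` -/
theorem alg_rootH {k Ω : Type} [Field k] [Field Ω] [Algebra k Ω] (A : IntermediateField k Ω)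
    (s z : Ω) (hs : s ∈ A) (φ F h : k[X]) (hφ : φ.natDegree ≠ 0) (hh : aeval s h ≠ 0)
    (h0 : aeval z φ * aeval s h ^ 3 = aeval s F) : IsAlgebraic A z := by
  have h3 : aeval z φ = aeval s F / aeval s h ^ 3 := by
    rw [eq_div_iff (pow_ne_zero _ hh), h0]
  have h4 : aeval s F / aeval s h ^ 3 ∈ A :=
    div_mem (aeval_memF A s hs F) (pow_mem (aeval_memF A s hs h) _)
  refine ⟨φ.map (algebraMap k A) - C (⟨aeval s F / aeval s h ^ 3, h4⟩ : A), ?_, ?_⟩
  · intro h0
    apply hφ
    rw [← natDegree_map (algebraMap k A), sub_eq_zero.1 h0, natDegree_C]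
  · rw [map_sub, aeval_map_algebraMap, aeval_C, h3]
    exact sub_self _

theorem natDegree_ne {k : Type} [Field k] {φ : k[X]} (h : derivative φ ≠ 0) :
    φ.natDegree ≠ 0 := by
  intro h0
  apply h
  rw [eq_C_of_natDegree_eq_zero h0, derivative_C]

section

variable {k K Kb : Type} [Field k] [Field K] [Field Kb] [Algebra k K] [Algebra k Kb]
  [Algebra K Kb] [IsScalarTower k K Kb]

/-- `K` is algebraic over `k(s)` -/
theorem alg_KH (s : K) (hs : Transcendental k s) (h : k[X]) (hh : h ≠ 0) (S : Finset Kb)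
    (hS : ∀ z ∈ S, ∃ φ F : k[X], derivative φ ≠ 0 ∧
      aeval z φ * aeval (algebraMap K Kb s) h ^ 3 = aeval (algebraMap K Kb s) F)
    (hK : ∀ a : K, algebraMap K Kb a ∈
      IntermediateField.adjoin k (insert (algebraMap K Kb s) (S : Set Kb))) (a : K) :
    IsAlgebraic (IntermediateField.adjoin k {algebraMap K Kb s}) (algebraMap K Kb a) := by
  have hs' : algebraMap K Kb s ∈ IntermediateField.adjoin k {algebraMap K Kb s} :=
    IntermediateField.mem_adjoin_simple_self _ _
  have hsK : Transcendental k (algebraMap K Kb s) :=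
    (transcendental_algebraMap_iff (algebraMap K Kb).injective).2 hs
  have hη : aeval (algebraMap K Kb s) h ≠ 0 := fun h1 =>
    hh (transcendental_iff_injective.1 hsK (h1.trans (map_zero _).symm))
  refine alg_adjoin _ _ ?_ _ (hK a)
  rintro z (rfl | hz)
  · exact isAlgebraic_algebraMap
      (⟨algebraMap K Kb s, hs'⟩ : IntermediateField.adjoin k {algebraMap K Kb s})
  · obtain ⟨φ, F, h1, h2⟩ := hS z hz
    exact alg_rootH _ _ z hs' φ F h (natDegree_ne h1) hη h2

theorem alg_down (s a : K)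
    (h1 : IsAlgebraic (IntermediateField.adjoin k {algebraMap K Kb s}) (algebraMap K Kb a)) :
    IsAlgebraic (IntermediateField.adjoin k {s}) a := by
  let ι : K →ₐ[k] Kb := IsScalarTower.toAlgHom k K Kb
  have h2 : IntermediateField.adjoin k {algebraMap K Kb s} =
      (IntermediateField.adjoin k {s}).map ι := by
    rw [IntermediateField.adjoin_map, Set.image_singleton]
    rfl
  rw [h2] at h1
  obtain ⟨q, hq0, hq⟩ := h1
  let e := (IntermediateField.adjoin k {s}).equivMap ι
  refine ⟨q.map (e.symm : _ ≃+* _).toRingHom, ?_, ?_⟩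
  · exact (Polynomial.map_ne_zero_iff (RingHom.injective _)).2 hq0
  · apply (algebraMap K Kb).injective
    rw [map_zero, ← hq, aeval_def, aeval_def, eval₂_map, hom_eval₂]
    congr 1
    ext b
    obtain ⟨b', rfl⟩ := e.surjective b
    show ι ((e.symm (e b') : IntermediateField.adjoin k {s}) : K) = _
    rw [e.symm_apply_apply]
    rfl

/-- the generic point of the curve -/
theorem setupH [Algebra.IsAlgebraic K Kb] (s : K) (hs : Transcendental k s)
    (hKs : ∀ a : K, IsAlgebraic (IntermediateField.adjoin k {algebraMap K Kb s})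
      (algebraMap K Kb a)) (W : WeierstrassCurve k[X]) :
    ∃ (M : Type) (_ : Field M) (_ : Algebra k M) (_ : Algebra K M) (_ : Algebra Kb M)
      (x y : M), IsScalarTower k K M ∧ IsScalarTower k Kb M ∧ IsScalarTower K Kb M ∧
      IsAlgClosed M ∧ Algebra.trdeg k M = 2 ∧ Transcendental K x ∧
      MvPolynomial.aeval ![x, y, algebraMap K M s] (wpoly W) = 0 ∧
      ∀ b : M, IsAlgebraic (IntermediateField.adjoin k
        (Set.range ![x, y, algebraMap K M s])) b := by
  obtain ⟨M, _, _, x, hM, hx, hal⟩ := exists_M Kb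
  let algK : Algebra K M := ((algebraMap Kb M).comp (algebraMap K Kb)).toAlgebra
  let algk : Algebra k M := ((algebraMap Kb M).comp (algebraMap k Kb)).toAlgebra
  have tow1 : IsScalarTower K Kb M := IsScalarTower.of_algebraMap_eq fun _ => rfl
  have tow2 : IsScalarTower k Kb M := IsScalarTower.of_algebraMap_eq fun _ => rfl
  have tow3 : IsScalarTower k K M := IsScalarTower.of_algebraMap_eq fun a => by
    rw [IsScalarTower.algebraMap_apply K Kb M, ← IsScalarTower.algebraMap_apply k K Kb,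
      ← IsScalarTower.algebraMap_apply k Kb M]
  obtain ⟨y, hy⟩ := exists_y W x (algebraMap K M s)
  have hxK : Transcendental K x := fun h => hx (h.tower_top Kb)
  obtain ⟨s', hs'⟩ : ∃ s', s' = algebraMap K Kb s := ⟨_, rfl⟩
  have hsM : algebraMap Kb M s' = algebraMap K M s := by
    rw [hs', ← IsScalarTower.algebraMap_apply K Kb M]
  -- `Kb` is algebraic over `k(s)`
  have hKb : ∀ b : Kb, IsAlgebraic (IntermediateField.adjoin k {s'}) b := by
    intro b
    refine algTrans (K := K) _ (fun a => ?_) b (Algebra.IsAlgebraic.isAlgebraic b)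
    rw [hs']
    exact hKs a
  have hsKb : Transcendental k s' := by
    rw [hs']
    exact (transcendental_algebraMap_iff (algebraMap K Kb).injective).2 hs
  have htd : Algebra.trdeg k M = 2 := by
    rw [← _root_.trdeg_add_eq k Kb (A := M), trdeg_one s' hsKb hKb, trdeg_one x hx hal]
    norm_num
  refine ⟨M, inferInstance, algk, algK, inferInstance, x, y, tow3, tow2, tow1, hM, htd, hxK, hy,
    fun b => ?_⟩
  obtain ⟨A, hA⟩ : ∃ A, A = IntermediateField.adjoin k (Set.range ![x, y, algebraMap K M s]) :=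
    ⟨_, rfl⟩
  rw [← hA]
  have hxA : x ∈ A := by
    rw [hA]
    exact IntermediateField.subset_adjoin _ _ ⟨0, rfl⟩
  have hsA : algebraMap K M s ∈ A := by
    rw [hA]
    exact IntermediateField.subset_adjoin _ _ ⟨2, rfl⟩
  -- `Kb`
  have h1 : ∀ a : Kb, IsAlgebraic A (algebraMap Kb M a) := by
    intro a
    let ι : Kb →ₐ[k] M := IsScalarTower.toAlgHom k Kb M
    have h2 : ∀ c : IntermediateField.adjoin k {s'}, algebraMap Kb M c ∈ A := by
      intro c
      have h3 : (IntermediateField.adjoin k {s'}).map ι ≤ A := by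
        rw [IntermediateField.adjoin_map, Set.image_singleton, IntermediateField.adjoin_le_iff,
          Set.singleton_subset_iff]
        show algebraMap Kb M s' ∈ A
        rw [hsM]
        exact hsA
      exact h3 ⟨c, c.2, rfl⟩
    obtain ⟨q, hq0, hq⟩ := hKb a
    let ψ : IntermediateField.adjoin k {s'} →+* A :=
      ((algebraMap Kb M).comp (algebraMap (IntermediateField.adjoin k {s'}) Kb)).codRestrict A h2
    refine ⟨q.map ψ, (Polynomial.map_ne_zero_iff (RingHom.injective _)).2 hq0, ?_⟩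
    rw [aeval_def, eval₂_map]
    have h4 : (algebraMap A M).comp ψ =
        (algebraMap Kb M).comp (algebraMap (IntermediateField.adjoin k {s'}) Kb) :=
      RingHom.ext fun _ => rfl
    rw [h4, ← hom_eval₂]
    rw [aeval_def] at hq
    rw [hq, map_zero]
  -- `Kb(x)`
  refine algTrans (K := IntermediateField.adjoin Kb {x}) A (fun a => ?_) b (hal b)
  have h2 : ∀ a ∈ IntermediateField.adjoin Kb {x}, a ∈ algebraicClosure A M := by
    intro a ha
    induction ha using IntermediateField.adjoin_induction with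
    | mem a ha =>
      rw [Set.mem_singleton_iff.1 ha]
      exact (algebraicClosure A M).algebraMap_mem (⟨x, hxA⟩ : A)
    | algebraMap a => exact mem_algebraicClosure_iff.2 (h1 a)
    | add x y _ _ hx hy => exact add_mem hx hy
    | inv x _ hx => exact inv_mem hx
    | mul x y _ _ hx hy => exact mul_mem hx hy
  exact mem_algebraicClosure_iff.1 (h2 a a.2)

end

/-- the transcendence degree does not grow in algebraic extensions -/
theorem trdeg_le_alg {k M : Type} [Field k] [Field M] [Algebra k M] (T B : IntermediateField k M)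
    (hTB : T ≤ B) (h : ∀ b ∈ B, IsAlgebraic T b) : Algebra.trdeg k B ≤ Algebra.trdeg k T := by
  obtain ⟨B', hB'⟩ : ∃ B' : IntermediateField T M, B'.restrictScalars k = B :=
    ⟨IntermediateField.extendScalars hTB, IntermediateField.extendScalars_restrictScalars hTB⟩
  have h7 : Algebra.IsAlgebraic T B' := by
    constructor
    intro b
    have h8 : IsAlgebraic T (b : M) := by
      apply h
      rw [← hB']
      exact b.2
    exact isAlgebraic_algebraMap_iff (algebraMap B' M).injective |>.1 h8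
  have h2 := _root_.trdeg_add_eq k T (A := B')
  have h3 : Algebra.trdeg T B' = 0 := trdeg_eq_zero_iff.2 h7
  rw [h3, add_zero] at h2
  have h4 : Algebra.trdeg k B = Algebra.trdeg k (B'.restrictScalars k) := by rw [hB']
  rw [h4]
  exact h2.ge

section

variable {k M : Type} [Field k] [Field M] [Algebra k M]

theorem wt_d0 (ξ : ℕ) (d : Fin 3 →₀ ℕ) (h : Finsupp.weight (![ξ, 1, 0] : Fin 3 → ℕ) d < ξ) :
    d 0 = 0 := by
  by_contra h0
  have h1 : ξ ≤ Finsupp.weight (![ξ, 1, 0] : Fin 3 → ℕ) d := by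
    rw [Finsupp.weight_apply, Finsupp.sum_fintype _ _ (fun i => by simp)]
    rw [Fin.sum_univ_three]
    show ξ ≤ d 0 • ξ + d 1 • 1 + d 2 • 0
    simp only [smul_eq_mul]
    nlinarith [Nat.pos_of_ne_zero h0]
  omega

/-- the layers: a ruled surface -/
theorem emt_layer (X₀ t Y η : M) (C₀ : Finset M) (hC : ∀ c ∈ C₀, IsAlgebraic k c)
    (hal : ∀ b : M, IsAlgebraic (IntermediateField.adjoin k (Set.range ![X₀, t, 0])) b)
    (ξ : ℕ) (f : MvPolynomial (Fin 3) (IntermediateField.adjoin k (C₀ : Set M)))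
    (hf : MvPolynomial.weightedTotalDegree (![ξ, 1, 0] : Fin 3 → ℕ) f < ξ)
    (hη : η ∈ IntermediateField.adjoin k {t}) (hη0 : η ≠ 0)
    (h : (Y ^ 3 - Y) * η ^ 3 = MvPolynomial.aeval ![X₀, t, 0] f) :
    Emt (KZ (IntermediateField.adjoin k (C₀ : Set M) ⊔
      IntermediateField.adjoin k (Set.range ![X₀, t, 0])) Y) := by
  obtain ⟨T, hT⟩ : ∃ T, T = IntermediateField.adjoin k ({t} : Set M) := ⟨_, rfl⟩
  obtain ⟨E, hE⟩ : ∃ E, E = IntermediateField.adjoin k (C₀ : Set M) := ⟨_, rfl⟩
  subst hE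
  rw [← hT] at hη
  have htT : t ∈ T := by
    rw [hT]
    exact IntermediateField.subset_adjoin _ _ rfl
  have hEal : ∀ c ∈ IntermediateField.adjoin k (C₀ : Set M), IsAlgebraic T c := fun c hc =>
    alg_adjoin T _ (fun a ha => (hC a ha).tower_top T) c hc
  obtain ⟨Ta, hTa⟩ : ∃ Ta, Ta = algebraicClosure T M := ⟨_, rfl⟩
  have hmem : ∀ b : M, IsAlgebraic T b ↔ b ∈ Ta := fun b => by
    rw [hTa]
    exact mem_algebraicClosure_iff.symm
  have htTa : t ∈ Ta := (hmem t).1 (isAlgebraic_algebraMap (⟨t, htT⟩ : T))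
  have hηTa : η ∈ Ta := (hmem η).1 (isAlgebraic_algebraMap (⟨η, hη⟩ : T))
  have hfTa : MvPolynomial.aeval ![X₀, t, 0] f ∈ Ta := by
    rw [MvPolynomial.aeval_def, MvPolynomial.eval₂_eq']
    refine sum_mem fun d hd => mul_mem ?_ (prod_mem fun i _ => ?_)
    · exact (hmem _).1 (hEal _ (MvPolynomial.coeff d f).2)
    · have h1 : Finsupp.weight (![ξ, 1, 0] : Fin 3 → ℕ) d < ξ :=
        lt_of_le_of_lt ((wle_iff _ f _).1 le_rfl d hd) hf
      have h2 := wt_d0 ξ d h1
      fin_cases i
      · show X₀ ^ d 0 ∈ Ta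
        rw [h2, pow_zero]
        exact one_mem Ta
      · exact pow_mem htTa _
      · exact pow_mem (zero_mem Ta) _
  have hY3 : Y ^ 3 - Y = MvPolynomial.aeval ![X₀, t, 0] f / η ^ 3 := by
    rw [eq_div_iff (pow_ne_zero _ hη0), h]
  have hY3Ta : Y ^ 3 - Y ∈ Ta := by
    rw [hY3]
    exact div_mem hfTa (pow_mem hηTa _)
  have hYT : IsAlgebraic T Y := by
    have h1 : IsAlgebraic Ta Y := by
      refine ⟨X ^ 3 - X - C (⟨Y ^ 3 - Y, hY3Ta⟩ : Ta), ?_, ?_⟩
      · intro h0
        have h2 := congrArg (fun q : Ta[X] => q.coeff 3) h0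
        simp only [coeff_sub, coeff_X_pow, coeff_X, coeff_C, coeff_zero] at h2
        norm_num at h2
      · rw [map_sub, map_sub, map_pow, aeval_X, aeval_C]
        exact sub_self _
    subst hTa
    exact h1.restrictScalars T
  obtain ⟨K₁, hK₁⟩ : ∃ K₁ : IntermediateField k M, K₁ = IntermediateField.adjoin k
    ((insert t (insert Y C₀) : Finset M) : Set M) := ⟨_, rfl⟩
  obtain ⟨K₂, hK₂⟩ : ∃ K₂ : IntermediateField k M, K₂ = IntermediateField.adjoin k
    (({X₀} : Finset M) : Set M) := ⟨_, rfl⟩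
  have hK₁m : ∀ b ∈ (insert t (insert Y C₀) : Finset M), b ∈ K₁ := fun b hb => by
    rw [hK₁]
    exact IntermediateField.subset_adjoin _ _ hb
  have hTK : T ≤ K₁ := by
    rw [hT, IntermediateField.adjoin_le_iff, Set.singleton_subset_iff]
    exact hK₁m t (Finset.mem_insert_self _ _)
  have hK₁al : ∀ b ∈ K₁, IsAlgebraic T b := by
    intro b hb
    rw [hK₁] at hb
    refine alg_adjoin T _ ?_ b hb
    intro a ha
    rcases Finset.mem_insert.1 ha with rfl | ha
    · exact (hmem _).2 htTa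
    · rcases Finset.mem_insert.1 ha with rfl | ha
      · exact hYT
      · exact (hC a ha).tower_top T
  have hone : ∀ b : M, Algebra.trdeg k (IntermediateField.adjoin k ({b} : Set M)) ≤ 1 := by
    intro b
    have h2 := T1B.trdeg_adjoin_le_mk (k := k) ({b} : Set M)
    rwa [Cardinal.mk_singleton] at h2
  have hL : KZ (IntermediateField.adjoin k (C₀ : Set M) ⊔
      IntermediateField.adjoin k (Set.range ![X₀, t, 0])) Y = K₁ ⊔ K₂ := by
    have hX : X₀ ∈ K₁ ⊔ K₂ := (le_sup_right : K₂ ≤ K₁ ⊔ K₂) (by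
      rw [hK₂]
      exact IntermediateField.subset_adjoin _ _ (by simp))
    apply le_antisymm
    · refine sup_le (sup_le ?_ ?_) ?_
      · rw [IntermediateField.adjoin_le_iff]
        intro c hc
        exact (le_sup_left : K₁ ≤ K₁ ⊔ K₂) (hK₁m c (by
          rw [Finset.mem_insert, Finset.mem_insert]
          exact Or.inr (Or.inr hc)))
      · rw [IntermediateField.adjoin_le_iff]
        rintro _ ⟨i, rfl⟩
        fin_cases i
        · exact hX
        · exact (le_sup_left : K₁ ≤ K₁ ⊔ K₂) (hK₁m t (Finset.mem_insert_self _ _))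
        · exact zero_mem (K₁ ⊔ K₂)
      · rw [IntermediateField.adjoin_le_iff, Set.singleton_subset_iff]
        exact (le_sup_left : K₁ ≤ K₁ ⊔ K₂) (hK₁m Y (by
          rw [Finset.mem_insert, Finset.mem_insert]
          exact Or.inr (Or.inl rfl)))
    · obtain ⟨B, hB⟩ : ∃ B, B = KZ (IntermediateField.adjoin k (C₀ : Set M) ⊔
        IntermediateField.adjoin k (Set.range ![X₀, t, 0])) Y := ⟨_, rfl⟩
      rw [← hB]
      have hB1 : IntermediateField.adjoin k (C₀ : Set M) ⊔
          IntermediateField.adjoin k (Set.range ![X₀, t, 0]) ≤ B := by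
        rw [hB]
        exact le_sup_left
      have hB2 : IntermediateField.adjoin k (Set.range ![X₀, t, 0]) ≤ B := le_sup_right.trans hB1
      refine sup_le ?_ ?_
      · rw [hK₁, IntermediateField.adjoin_le_iff]
        intro a ha
        rcases Finset.mem_insert.1 ha with rfl | ha
        · exact hB2 (IntermediateField.subset_adjoin _ _ ⟨1, rfl⟩)
        · rcases Finset.mem_insert.1 ha with rfl | ha
          · rw [hB]
            exact (le_sup_right : IntermediateField.adjoin k {a} ≤ _)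
              (IntermediateField.mem_adjoin_simple_self k a)
          · exact hB1 ((le_sup_left : IntermediateField.adjoin k (C₀ : Set M) ≤ _)
              (IntermediateField.subset_adjoin _ _ ha))
      · rw [hK₂, IntermediateField.adjoin_le_iff]
        intro a ha
        rw [Finset.coe_singleton] at ha
        rw [Set.mem_singleton_iff.1 ha]
        exact hB2 (IntermediateField.subset_adjoin _ _ ⟨0, rfl⟩)
  refine emt_two ⟨K₁, K₂, ⟨_, hK₁.symm⟩, ⟨_, hK₂.symm⟩, ?_, ?_, hL⟩ fun b => ?_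
  · refine (trdeg_le_alg T K₁ hTK hK₁al).trans ?_
    rw [hT]
    exact hone t
  · rw [hK₂, Finset.coe_singleton]
    exact hone X₀
  · exact alg_le (le_sup_right.trans le_sup_left) (hal b)

end

/-- the field of functions of the surface over a tower -/
theorem emt_T3 {k M : Type} [Field k] [Field M] [Algebra k M] [IsAlgClosed M] [CharP k 3]
    (htd : Algebra.trdeg k M = 2) (X₀ t z : M)
    (hal : ∀ b : M, IsAlgebraic (IntermediateField.adjoin k (Set.range ![X₀, t, 0])) b)
    (h ε f g : k[X]) (hη : aeval t h ≠ 0)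
    (hz : z ^ 2 * aeval t h ^ 9 =
      X₀ ^ 3 + aeval t h ^ 6 * (aeval t ε * X₀ ^ 2 + aeval t f * X₀ + aeval t g))
    (ξ υ γ D : ℕ)
    (hξ : 4 * υ + ξ ≤ D) (h2 : ε.natDegree + 2 * ξ ≤ D) (h4 : f.natDegree + ξ ≤ D)
    (h6 : g.natDegree ≤ D) (hγ : 3 * γ ≤ D) (hQ : 2 * (h.natDegree + 2 * υ) + γ ≤ D)
    (hQ' : 3 * (h.natDegree + 2 * υ) + 1 ≤ D) (hsum : D ≤ ξ + 1 + υ + γ)
    (hξ' : D < ξ + 6 * υ) (S : Finset M)
    (hS : ∀ z ∈ S, ∃ φ F : k[X], AddPoly φ ∧ derivative φ ≠ 0 ∧ F.natDegree + 6 * υ ≤ D ∧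
      aeval z φ * aeval t h ^ 3 = aeval t F)
    (F : IntermediateField k M)
    (hF : F ≤ IntermediateField.adjoin k (Set.range ![X₀, t, 0] ∪ insert z (S : Set M)))
    (hFal : ∀ y : M, IsAlgebraic F y) : Emt F := by
  have hp : Fact (Nat.Prime 3) := ⟨Nat.prime_three⟩
  have h2k : ((2 : ℕ) : k) ≠ 0 := by
    intro h
    have h4 := (CharP.cast_eq_zero_iff k 3 2).1 h
    omega
  have hξ0 : 0 < ξ := by
    rcases Nat.eq_zero_or_pos ξ with rfl | h0
    · omega
    · exact h0
  have hirr : ∀ C₀ : Finset M, (∀ c ∈ C₀, IsAlgebraic k c) →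
      ∀ zK : z ^ 2 ∈ IntermediateField.adjoin k (C₀ : Set M) ⊔
        IntermediateField.adjoin k (Set.range ![X₀, t, 0]),
        Irreducible (X ^ 2 - C (⟨z ^ 2, zK⟩ : (IntermediateField.adjoin k (C₀ : Set M) ⊔
          IntermediateField.adjoin k (Set.range ![X₀, t, 0]) : IntermediateField k M))) :=
    fun C₀ hC zK => irr_P4a htd X₀ t z hal h ε f g hη hz C₀ hC zK
  have hX1 : ∀ q : k[X], MvPolynomial.aeval ![X₀, t, 0]
      (aeval (MvPolynomial.X 1 : MvPolynomial (Fin 3) k) q) = aeval t q := by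
    intro q
    rw [← Polynomial.aeval_algHom_apply, MvPolynomial.aeval_X]
    rfl
  have e0 : MvPolynomial.aeval ![X₀, t, 0] (MvPolynomial.X 0 : MvPolynomial (Fin 3) k) = X₀ := by
    rw [MvPolynomial.aeval_X]
    rfl
  have htm : t ∈ IntermediateField.adjoin k (Set.range ![X₀, t, 0]) :=
    IntermediateField.subset_adjoin _ _ ⟨1, rfl⟩
  have hXm : X₀ ∈ IntermediateField.adjoin k (Set.range ![X₀, t, 0]) :=
    IntermediateField.subset_adjoin _ _ ⟨0, rfl⟩
  have hzA : z ^ 2 ∈ IntermediateField.adjoin k (Set.range ![X₀, t, 0]) := by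
    have h1 : z ^ 2 = (X₀ ^ 3 + aeval t h ^ 6 * (aeval t ε * X₀ ^ 2 + aeval t f * X₀ +
        aeval t g)) / aeval t h ^ 9 := by
      rw [← hz, mul_div_assoc, div_self (pow_ne_zero _ hη), mul_one]
    rw [h1]
    exact div_mem (add_mem (pow_mem hXm _) (mul_mem (pow_mem (aeval_memF _ t htm h) _)
      (add_mem (add_mem (mul_mem (aeval_memF _ t htm ε) (pow_mem hXm _))
        (mul_mem (aeval_memF _ t htm f) hXm)) (aeval_memF _ t htm g))))
      (pow_mem (aeval_memF _ t htm h) _)
  have z0 : z ≠ 0 := by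
    rintro rfl
    have zK : (0 : M) ^ 2 ∈ IntermediateField.adjoin k ((∅ : Finset M) : Set M) ⊔
        IntermediateField.adjoin k (Set.range ![X₀, t, 0]) :=
      (le_sup_right : IntermediateField.adjoin k (Set.range ![X₀, t, 0]) ≤ _) hzA
    have irr := hirr ∅ (fun c hc => absurd hc (Finset.notMem_empty c)) zK
    have h7 : (⟨(0 : M) ^ 2, zK⟩ : (IntermediateField.adjoin k ((∅ : Finset M) : Set M) ⊔
        IntermediateField.adjoin k (Set.range ![X₀, t, 0]) : IntermediateField k M)) = 0 :=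
      Subtype.ext (zero_pow (by norm_num))
    rw [h7, C_0, sub_zero] at irr
    exact not_irreducible_pow (by norm_num) irr
  have wX0 : MvPolynomial.weightedTotalDegree (![ξ, 1, 0] : Fin 3 → ℕ)
      (MvPolynomial.X 0 : MvPolynomial (Fin 3) k) ≤ ξ := wle_X _ _
  have wq : ∀ q : k[X], MvPolynomial.weightedTotalDegree (![ξ, 1, 0] : Fin 3 → ℕ)
      (aeval (MvPolynomial.X 1 : MvPolynomial (Fin 3) k) q) ≤ q.natDegree := fun q =>
    (wle_aeval_X _ 1 q).trans (le_of_eq (mul_one _))
  refine tower_injP 3 le_rfl htd ![X₀, t, 0] hal (MvPolynomial.X 2) (MvPolynomial.X 0)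
    (aeval (MvPolynomial.X 1) ε * MvPolynomial.X 0 ^ 2 + aeval (MvPolynomial.X 1) f *
      MvPolynomial.X 0 + aeval (MvPolynomial.X 1) g) (aeval (MvPolynomial.X 1) h)
    (MvPolynomial.X_ne_zero _) ?_ ![ξ, 1, 0] 2 3 υ γ h.natDegree 0 D le_rfl h2k (by norm_num)
    le_rfl z z0 ?_ ?_ (wle_X _ _) (wq h) ?_ ?_ hγ hQ hQ' ?_ S ?_ hirr ?_ ?_ F hF hFal
  · rw [MvPolynomial.aeval_X]
    rfl
  · rw [hX1]
    exact hη
  · simp only [map_add, map_mul, map_pow, e0, hX1]
    exact hz
  · omega
  · refine wle_add _ _ _ _ (wle_add _ _ _ _ ?_ ?_) ((wq g).trans h6)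
    · exact (wle_mul _ _ _ _ _ (wq ε) (wle_X_pow _ 0 2)).trans h2
    · exact (wle_mul _ _ _ _ _ (wq f) wX0).trans h4
  · show 0 + D ≤ ξ + 1 + 0 + υ + γ
    omega
  · intro w hw
    obtain ⟨φ, G, a1, a2, a3, a4⟩ := hS w hw
    refine ⟨φ, aeval (MvPolynomial.X 1) G, a1, a2, ?_, ?_⟩
    · have := wq G
      omega
    · rw [hX1, hX1]
      exact a4
  · intro C₀ hC _
    have hE : (IntermediateField.adjoin k (C₀ : Set M)).FG := ⟨C₀, rfl⟩
    have hEalg : Algebra.IsAlgebraic k (IntermediateField.adjoin k (C₀ : Set M)) :=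
      IntermediateField.isAlgebraic_adjoin fun c hc => (hC c hc).isIntegral
    refine (emt_hyper₃ htd (IntermediateField.adjoin k (C₀ : Set M)) hE
      (trdeg_eq_zero_iff.2 hEalg) ![X₀, t, 0] _ rfl (fun y => alg_le le_sup_right (hal y))
      (MvPolynomial.X 2) (MvPolynomial.X_ne_zero _) ?_ ![1, 1, 0] ?_).2
    · rw [MvPolynomial.aeval_X]
      rfl
    · refine lt_of_le_of_lt (wle_X _ _) ?_
      decide
  · intro C₀ hC _ Y G hG hY
    refine emt_layer X₀ t Y (aeval t h) C₀ hC hal ξ G (by omega) ?_ hη ?_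
    · exact aeval_memF _ t (IntermediateField.mem_adjoin_simple_self k t) h
    · rw [hX1] at hY
      exact hY

section

variable {k K Kb M : Type} [Field k] [Field K] [Field Kb] [Field M] [Algebra k K] [Algebra k Kb]
  [Algebra K Kb] [IsScalarTower k K Kb] [Algebra k M] [Algebra K M] [Algebra Kb M]
  [IsScalarTower k K M] [IsScalarTower k Kb M] [IsScalarTower K Kb M]

omit [Algebra k K] [IsScalarTower k K Kb] [IsScalarTower k K M] in
/-- the field `K` in a subfield which contains `s` and `S` -/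
theorem mem_genH (s : K) (S : Finset Kb)
    (hK : ∀ a : K, algebraMap K Kb a ∈
      IntermediateField.adjoin k (insert (algebraMap K Kb s) (S : Set Kb)))
    (B : IntermediateField k M) (hs : algebraMap K M s ∈ B)
    (hS : ∀ z ∈ S, algebraMap Kb M z ∈ B) (a : K) : algebraMap K M a ∈ B := by
  let ι : Kb →ₐ[k] M := IsScalarTower.toAlgHom k Kb M
  have a1 : (IntermediateField.adjoin k (insert (algebraMap K Kb s) (S : Set Kb))).map ι ≤ B := by
    rw [IntermediateField.adjoin_map, IntermediateField.adjoin_le_iff]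
    rintro _ ⟨b, hb, rfl⟩
    rcases hb with rfl | hb
    · show algebraMap Kb M (algebraMap K Kb s) ∈ B
      rw [← IsScalarTower.algebraMap_apply K Kb M s]
      exact hs
    · exact hS b hb
  have a2 := a1 ⟨algebraMap K Kb a, hK a, rfl⟩
  have a3 : algebraMap K M a = ι (algebraMap K Kb a) := IsScalarTower.algebraMap_apply K Kb M a
  rw [a3]
  exact a2

end

/-- **Towers over the curves `y ^ 2 = x ^ 3 + ε h ^ 5 x ^ 2 + h ^ 4 f x + h ^ 3 g`.** The weights of
`x' = h x`, `s`, `v`, `U` are `ξ`, `1`, `υ`, `γ`; the layers are `φ(z) = F / h ^ 3`. -/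
theorem sha_T3 {k K Kb : Type} [Field k] [Finite k] [Field K] [Field Kb] [Algebra k K]
    [Algebra k Kb] [Algebra K Kb] [IsScalarTower k K Kb] [IsAlgClosed Kb]
    [Algebra.IsAlgebraic K Kb] [CharP k 3] (s : K)
    (hs : Transcendental k s) (W : WeierstrassCurve k[X]) (hΔ : W.Δ ≠ 0)
    (w1 : W.a₁ = 0) (w3 : W.a₃ = 0) (h ε f g : k[X]) (hh : h ≠ 0) (w2 : W.a₂ = ε * h ^ 5)
    (w4 : W.a₄ = h ^ 4 * f) (w6 : W.a₆ = h ^ 3 * g) (ξ υ γ D : ℕ)
    (hξ : 4 * υ + ξ ≤ D) (h2 : ε.natDegree + 2 * ξ ≤ D) (h4 : f.natDegree + ξ ≤ D)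
    (h6 : g.natDegree ≤ D) (hγ : 3 * γ ≤ D) (hQ : 2 * (h.natDegree + 2 * υ) + γ ≤ D)
    (hQ' : 3 * (h.natDegree + 2 * υ) + 1 ≤ D) (hsum : D ≤ ξ + 1 + υ + γ)
    (hξ' : D < ξ + 6 * υ) (S : Finset Kb)
    (hS : ∀ z ∈ S, ∃ φ F : k[X], AddPoly φ ∧ derivative φ ≠ 0 ∧ F.natDegree + 6 * υ ≤ D ∧
      aeval z φ * aeval (algebraMap K Kb s) h ^ 3 = aeval (algebraMap K Kb s) F)
    (hK : ∀ a : K, algebraMap K Kb a ∈ IntermediateField.adjoin k
      (insert (algebraMap K Kb s) (S : Set Kb)))
    (ℓ : ℕ) (hℓ : ℓ.Prime) (hℓk : (ℓ : k) ≠ 0)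
    (c : ℕ → (Kb ≃ₐ[K] Kb) → Pts (Ws W s) Kb) (hc : ShaSys (Ws W s) k ℓ c) (n : ℕ) :
    Principal (Ws W s) (T1B.geo k K Kb) (c n) := by
  have hKs := alg_KH s hs h hh S (fun z hz => by
    obtain ⟨φ, F, -, a2, -, a4⟩ := hS z hz
    exact ⟨φ, F, a2, a4⟩) hK
  obtain ⟨M, _, _, _, _, x, y, t1, t2, t3, hM, htd, hx, hy, hal⟩ := setupH s hs hKs W
  have hsM : Transcendental k (algebraMap K M s) :=
    (transcendental_algebraMap_iff (algebraMap K M).injective).2 hs
  obtain ⟨t, ht⟩ : ∃ t, t = algebraMap K M s := ⟨_, rfl⟩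
  rw [← ht] at hsM
  obtain ⟨η, hη⟩ : ∃ η, η = aeval t h := ⟨_, rfl⟩
  have hη0 : η ≠ 0 := fun h1 => by
    rw [hη] at h1
    exact hh (transcendental_iff_injective.1 hsM (h1.trans (map_zero _).symm))
  have heq : y ^ 2 = x ^ 3 + aeval t ε * η ^ 5 * x ^ 2 + η ^ 4 * aeval t f * x +
      η ^ 3 * aeval t g := by
    have h1 := hy
    rw [aeval_wpoly, w1, w3, w4, w2, w6] at h1
    simp only [Matrix.cons_val_zero, Matrix.cons_val_one, Matrix.cons_val, map_zero,
      map_mul, map_pow, ← ht, ← hη] at h1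
    linear_combination h1
  obtain ⟨z, hz⟩ : ∃ z, z = y / η ^ 3 := ⟨_, rfl⟩
  have hyz : y = z * η ^ 3 := by
    rw [hz, div_mul_cancel₀ _ (pow_ne_zero _ hη0)]
  have hz2 : z ^ 2 * η ^ 9 = (η * x) ^ 3 + η ^ 6 * (aeval t ε * (η * x) ^ 2 +
      aeval t f * (η * x) + aeval t g) := by
    rw [hyz] at heq
    linear_combination η ^ 3 * heq
  obtain ⟨A, hA⟩ : ∃ A, A = IntermediateField.adjoin k (Set.range ![η * x, t, 0]) := ⟨_, rfl⟩
  have htA : t ∈ A := by
    rw [hA]
    exact IntermediateField.subset_adjoin _ _ ⟨1, rfl⟩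
  have hηA : η ∈ A := by
    rw [hη]
    exact aeval_memF A t htA h
  have hxA : x ∈ A := by
    have h1 : η * x ∈ A := by
      rw [hA]
      exact IntermediateField.subset_adjoin _ _ ⟨0, rfl⟩
    have h3 := div_mem h1 hηA
    rwa [mul_div_cancel_left₀ _ hη0] at h3
  have hyA : IsAlgebraic A y := by
    have h1 : y ^ 2 ∈ A := by
      rw [heq]
      exact add_mem (add_mem (add_mem (pow_mem hxA _) (mul_mem (mul_mem (aeval_memF A t htA ε)
        (pow_mem hηA _)) (pow_mem hxA _))) (mul_mem (mul_mem (pow_mem hηA _)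
        (aeval_memF A t htA f)) hxA)) (mul_mem (pow_mem hηA _) (aeval_memF A t htA g))
    refine ⟨X ^ 2 - C (⟨y ^ 2, h1⟩ : A), X_pow_sub_C_ne_zero (by norm_num) _, ?_⟩
    rw [map_sub, map_pow, aeval_X, aeval_C]
    exact sub_self _
  have hal' : ∀ b : M, IsAlgebraic (IntermediateField.adjoin k (Set.range ![η * x, t, 0])) b := by
    rw [← hA]
    intro b
    refine algTrans (K := IntermediateField.adjoin k (Set.range ![x, y, algebraMap K M s])) A
      (fun b => ?_) b (hal b)
    refine alg_adjoin A _ ?_ (b : M) b.2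
    rintro _ ⟨i, rfl⟩
    fin_cases i
    · exact isAlgebraic_algebraMap (⟨x, hxA⟩ : A)
    · exact hyA
    · show IsAlgebraic A (algebraMap K M s)
      rw [← ht]
      exact isAlgebraic_algebraMap (⟨t, htA⟩ : A)
  obtain ⟨F, hF⟩ : ∃ F : IntermediateField K M, F = IntermediateField.adjoin K {x, y} := ⟨_, rfl⟩
  have hxF : x ∈ F := by
    rw [hF]
    exact IntermediateField.subset_adjoin _ _ (by simp)
  have hyF : y ∈ F := by
    rw [hF]
    exact IntermediateField.subset_adjoin _ _ (by simp)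
  have hsub : IntermediateField.adjoin k (Set.range ![x, y, algebraMap K M s]) ≤
      F.restrictScalars k := by
    rw [IntermediateField.adjoin_le_iff]
    rintro _ ⟨i, rfl⟩
    fin_cases i
    · exact hxF
    · exact hyF
    · exact F.algebraMap_mem s
  have hFal : ∀ b : M, IsAlgebraic (F.restrictScalars k) b := fun b => by
    refine algTrans (K := IntermediateField.adjoin k (Set.range ![x, y, algebraMap K M s])) _
      (fun a => ?_) b (hal b)
    exact isAlgebraic_algebraMap (⟨a, hsub a.2⟩ : F.restrictScalars k)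
  -- the field is contained in the tower
  let ι : Kb →ₐ[k] M := IsScalarTower.toAlgHom k Kb M
  obtain ⟨B, hB⟩ : ∃ B : IntermediateField k M, B = IntermediateField.adjoin k
      (Set.range ![η * x, t, 0] ∪ insert z ((S.image ι : Finset M) : Set M)) := ⟨_, rfl⟩
  have hAB : A ≤ B := by
    rw [hA, hB]
    exact IntermediateField.adjoin.mono _ _ _ Set.subset_union_left
  have hzB : z ∈ B := by
    rw [hB]
    exact IntermediateField.subset_adjoin _ _ (Or.inr (Set.mem_insert _ _))
  have hSB : ∀ w ∈ S, algebraMap Kb M w ∈ B := by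
    intro w hw
    rw [hB]
    refine IntermediateField.subset_adjoin _ _ (Or.inr (Set.mem_insert_of_mem _ ?_))
    exact Finset.mem_coe.2 (Finset.mem_image.2 ⟨w, hw, rfl⟩)
  have hyB : y ∈ B := by
    rw [hyz]
    exact mul_mem hzB (pow_mem (hAB hηA) _)
  have hKM : ∀ b : K, algebraMap K M b ∈ B := by
    refine mem_genH s S hK B ?_ hSB
    rw [← ht]
    exact hAB htA
  have hle : F.restrictScalars k ≤ B := by
    let B' : IntermediateField K M := B.toSubfield.toIntermediateField hKM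
    have hFB : F ≤ B' := by
      rw [hF, IntermediateField.adjoin_le_iff]
      rintro b (rfl | hb)
      · exact hAB hxA
      · rw [Set.mem_singleton_iff.1 hb]
        exact hyB
    exact fun b hb => hFB hb
  have hemt : Emt (F.restrictScalars k) := by
    rw [hη] at hz2 hal' hB
    refine emt_T3 htd (aeval t h * x) t z hal' h ε f g (hη ▸ hη0) hz2 ξ υ γ D hξ h2 h4 h6 hγ hQ
      hQ' hsum hξ' (S.image ι) ?_ (F.restrictScalars k) (hle.trans hB.le) hFal
    intro w hw
    obtain ⟨w', hw', rfl⟩ := Finset.mem_image.1 hw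
    obtain ⟨φ, G, a1, a2, a3, a4⟩ := hS w' hw'
    refine ⟨φ, G, a1, a2, a3, ?_⟩
    have h7 : ∀ q : k[X], aeval t q = ι (aeval (algebraMap K Kb s) q) := by
      intro q
      have h8 : t = ι (algebraMap K Kb s) := by
        rw [ht]
        exact IsScalarTower.algebraMap_apply K Kb M s
      rw [h8, Polynomial.aeval_algHom_apply]
    rw [h7, h7, Polynomial.aeval_algHom_apply, ← a4, map_mul, map_pow]
  have hT1 : T1B.T1 k F ℓ := t1_of_emt (F.restrictScalars k) hFal hemt ℓ hℓ hℓk
  exact bridge s hs (fun a => alg_down s a (hKs a)) W hΔ x y hx hy F hF ℓ hℓ hℓk hT1 c hc n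

end Pool.Agent.FRT
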