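import Pool.Agent.ADH.T9b

/-!
# Mixed extensions of characteristic `p`: uniruled threefolds

Let `δ = (G / q ^ m) ^ p + H / q ^ p`, `1 ≤ m ≤ p`, and `F = F₁ / q ^ p`. With `1 / a = v ^ p` and
`Y = G / q ^ (m - 1) + q v ^ N w` the equation `w ^ p - w + δ a ^ N = F` becomes
`Y ^ p - (q v ^ N) ^ (p - 1) Y = - (q ^ (p - m) v ^ (N (p - 1)) G + H) + v ^ (p N) F₁`.
-/

set_option autoImplicit false

namespace Pool.Agent.FRT

open Polynomial Pool.Agent.TBR Pool.Agent.TUQ Pool.Agent.UQ Pool.Agent.WLD Pool.Agent.ADT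
  Pool.Agent.KTW Pool.Agent.ADH

universe u

/-- the equation -/
theorem eqPM {K : Type*} [Field K] (p : ℕ) [Fact p.Prime] [CharP K p] (m N : ℕ) (hm : 1 ≤ m)
    (hmp : m ≤ p) (δ F F₁ G H q a v w Y : K) (hq : q ≠ 0) (hav : a * v ^ p = 1)
    (hδ : δ * q ^ (p * m) = G ^ p + q ^ (p * (m - 1)) * H) (hF : F * q ^ p = F₁)
    (hw : w ^ p - w + δ * a ^ N = F) (hY : Y * q ^ (m - 1) = G + q ^ m * (v ^ N * w)) :
    Y ^ p - (q * v ^ N) ^ (p - 1) * Y =
      -(q ^ (p - m) * v ^ (N * (p - 1)) * G + H) + v ^ (p * N) * F₁ := by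
  have hp : 1 ≤ p := (Fact.out : p.Prime).one_le
  obtain ⟨V, hV⟩ : ∃ V, V = v ^ N := ⟨_, rfl⟩
  have haV : a ^ N * V ^ p = 1 := by
    rw [hV, ← pow_mul, mul_comm N p, pow_mul, ← mul_pow, hav, one_pow]
  have hvV' : v ^ (N * (p - 1)) = V ^ (p - 1) := by rw [hV, ← pow_mul]
  have hvV'' : v ^ (p * N) = V ^ p := by rw [hV, ← pow_mul, mul_comm]
  rw [hvV', hvV'', ← hV]
  rw [← hV] at hY
  obtain ⟨j, rfl⟩ : ∃ j, m = j + 1 := ⟨m - 1, by omega⟩
  rw [Nat.add_sub_cancel] at hδ hY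
  apply mul_left_cancel₀ (pow_ne_zero (p * j) hq)
  have e1 : q ^ (p * j) * Y ^ p = G ^ p + q ^ (p * (j + 1)) * (V ^ p * w ^ p) := by
    have h1 : q ^ (p * j) * Y ^ p = (Y * q ^ j) ^ p := by rw [mul_pow, ← pow_mul]; ring
    rw [h1, hY, add_pow_char, mul_pow, mul_pow, ← pow_mul]
    ring
  have e2 : q ^ (p * j) * ((q * V) ^ (p - 1) * Y) =
      q ^ (p * j) * (q ^ (p - (j + 1)) * V ^ (p - 1) * G) +
        q ^ (p * (j + 1)) * (V ^ p * w) := by
    apply mul_right_cancel₀ (pow_ne_zero j hq)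
    have h1 : q ^ (p * j) * ((q * V) ^ (p - 1) * Y) * q ^ j =
        q ^ (p * j) * (q * V) ^ (p - 1) * (Y * q ^ j) := by ring
    have h2 : q ^ (p - 1) = q ^ (p - (j + 1)) * q ^ j := by
      rw [← pow_add]
      congr 1
      omega
    have h3 : V ^ p = V ^ (p - 1) * V := by
      rw [← pow_succ]
      congr 1
      omega
    have h4 : q ^ (p * (j + 1)) * q ^ j = q ^ (p * j) * q ^ (p - 1) * q ^ (j + 1) := by
      rw [← pow_add, ← pow_add, ← pow_add]
      congr 1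
      have : p * (j + 1) = p * j + p := by ring
      omega
    rw [h1, hY, mul_pow, h3]
    linear_combination (q ^ (p * j) * V ^ (p - 1) * G) * h2 -
      (V ^ (p - 1) * V * w) * h4
  have e3 : V ^ p * w ^ p = V ^ p * w + F * V ^ p - δ := by
    linear_combination V ^ p * hw - δ * haV
  have e4 : q ^ (p * (j + 1)) * F = q ^ (p * j) * F₁ := by
    rw [← hF]
    ring
  rw [mul_sub, e1, e2, e3]
  linear_combination -hδ + V ^ p * e4

section

variable {κ : Type u} [Field κ]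

/-- the threefold `g(x) = 0`, `w ^ p - w + δ a ^ N = F`, where `δ = (G / q ^ m) ^ p + H / q ^ p` and
`F = F' / q ^ p`, is uniruled -/
theorem fam_uniPM (p : ℕ) [Fact p.Prime] [CharP κ p] (N m : ℕ) (hN : 0 < N) (hm : 1 ≤ m)
    (hmp : m ≤ p) {K₀ L : Type u} [Field K₀] [Field L] [Algebra κ K₀]
    [Algebra κ L] [Algebra K₀ L] [IsScalarTower κ K₀ L] {r : ℕ} (x : Fin r → K₀)
    (hK₀ : IntermediateField.adjoin κ (Set.range x) = ⊤) (htd : Algebra.trdeg κ K₀ + 1 = r)
    (g₀ : MvPolynomial (Fin r) κ) (hg0 : g₀ ≠ 0) (hg₀ : MvPolynomial.aeval x g₀ = 0)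
    (G H q F' : MvPolynomial (Fin r) κ) (hq : MvPolynomial.aeval x q ≠ 0) (δ F : K₀) (hδ0 : δ ≠ 0)
    (hδ : δ * MvPolynomial.aeval x q ^ (p * m) =
      MvPolynomial.aeval x G ^ p + MvPolynomial.aeval x q ^ (p * (m - 1)) * MvPolynomial.aeval x H)
    (hF : F * MvPolynomial.aeval x q ^ p = MvPolynomial.aeval x F')
    (a w : L) (ha : Transcendental K₀ a)
    (hw : w ^ p - w + algebraMap K₀ L δ * a ^ N = algebraMap K₀ L F)
    (hgen : IntermediateField.adjoin K₀ {a, w} = ⊤) (ω : Fin r → ℕ) (υ γ τ d D : ℕ)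
    (h0 : MvPolynomial.weightedTotalDegree ω g₀ ≤ d)
    (hτ : MvPolynomial.weightedTotalDegree ω q ≤ τ)
    (hG : (p - m) * τ + N * (p - 1) * υ + MvPolynomial.weightedTotalDegree ω G ≤ D)
    (hH : MvPolynomial.weightedTotalDegree ω H ≤ D)
    (hF' : MvPolynomial.weightedTotalDegree ω F' + p * N * υ ≤ D) (hγ : p * γ ≤ D)
    (hQ : (p - 1) * (τ + N * υ) + γ ≤ D) (hQ' : p * (τ + N * υ) + 1 ≤ D)
    (h6 : d + D ≤ ∑ i, ω i + υ + γ) : Uniruled κ L := by
  classical
  have hp : 2 ≤ p := (Fact.out : p.Prime).two_le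
  have hCL : CharP L p := charP_of_injective_algebraMap (algebraMap κ L).injective p
  have ha0 : a ≠ 0 := by
    rintro rfl
    exact ha isAlgebraic_zero
  -- the extension
  let Ω := AlgebraicClosure L
  let j : L →ₐ[κ] Ω := IsScalarTower.toAlgHom κ L Ω
  have hCΩ : CharP Ω p := charP_of_injective_algebraMap (algebraMap κ Ω).injective p
  have hja : j a ≠ 0 := (map_ne_zero_iff j j.injective).2 ha0
  obtain ⟨v, hv⟩ := IsAlgClosed.exists_pow_nat_eq (j a)⁻¹ (show 0 < p by omega)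
  have hv0 : v ≠ 0 := by
    rintro rfl
    rw [zero_pow (by omega)] at hv
    exact inv_ne_zero hja hv.symm
  obtain ⟨X₀, hX₀⟩ : ∃ X₀ : Fin r → Ω, X₀ = fun i => j (algebraMap K₀ L (x i)) := ⟨_, rfl⟩
  have hval : ∀ P : MvPolynomial (Fin r) κ, MvPolynomial.aeval X₀ P =
      j (algebraMap K₀ L (MvPolynomial.aeval x P)) := by
    intro P
    rw [hX₀, ← MvPolynomial.aeval_algebraMap_apply (A := K₀) (B := L) x P]
    exact (MvPolynomial.comp_aeval_apply (fun i => algebraMap K₀ L (x i)) j P).symm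
  obtain ⟨q', hq'⟩ : ∃ q', q' = MvPolynomial.aeval X₀ q := ⟨_, rfl⟩
  obtain ⟨G', hG'⟩ : ∃ G', G' = MvPolynomial.aeval X₀ G := ⟨_, rfl⟩
  have hq0 : q' ≠ 0 := by
    rw [hq', hval]
    exact (map_ne_zero_iff j j.injective).2 ((_root_.map_ne_zero _).2 hq)
  obtain ⟨Y, hY⟩ : ∃ Y : Ω, Y = (G' + q' ^ m * (v ^ N * j w)) / q' ^ (m - 1) := ⟨_, rfl⟩
  have hY' : Y * q' ^ (m - 1) = G' + q' ^ m * (v ^ N * j w) := by
    rw [hY, div_mul_cancel₀ _ (pow_ne_zero _ hq0)]
  have hjδ : j (algebraMap K₀ L δ) * q' ^ (p * m) =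
      G' ^ p + q' ^ (p * (m - 1)) * MvPolynomial.aeval X₀ H := by
    have h1 := congrArg (fun b => j (algebraMap K₀ L b)) hδ
    simp only [map_mul, map_pow, map_add] at h1
    rw [hq', hG', hval, hval, hval]
    exact h1
  have hjF : j (algebraMap K₀ L F) * q' ^ p = MvPolynomial.aeval X₀ F' := by
    have h1 := congrArg (fun b => j (algebraMap K₀ L b)) hF
    simp only [map_mul, map_pow] at h1
    rw [hq', hval, hval]
    exact h1
  have hkey := eqPM p m N hm hmp (j (algebraMap K₀ L δ)) (j (algebraMap K₀ L F))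
    (MvPolynomial.aeval X₀ F') G' (MvPolynomial.aeval X₀ H) q' (j a) v (j w) Y
    hq0 (by rw [hv, mul_inv_cancel₀ hja]) hjδ hjF
    (by rw [← map_pow, ← map_pow, ← map_sub, ← map_mul, ← map_add, hw]) hY'
  let g : Fin r → Fin (r + 1 + 1) := fun i => i.castSucc.castSucc
  have hg : Function.Injective g := fun i j h =>
    Fin.castSucc_injective _ (Fin.castSucc_injective _ h)
  let i₀ : Fin (r + 1 + 1) := Fin.last (r + 1)
  let i₁ : Fin (r + 1 + 1) := (Fin.last r).castSucc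
  obtain ⟨η, hη⟩ : ∃ η : Fin (r + 1 + 1) → Ω, η = Fin.snoc (Fin.snoc X₀ v) Y := ⟨_, rfl⟩
  let W : Fin (r + 1 + 1) → ℕ := Fin.snoc (Fin.snoc ω υ) γ
  have ηg : ∀ i, η (g i) = X₀ i := fun i => by
    simp only [hη, g, Fin.snoc_castSucc]
  have η0 : η i₀ = Y := by simp only [hη, i₀, Fin.snoc_last]
  have η1 : η i₁ = v := by simp only [hη, i₁, Fin.snoc_castSucc, Fin.snoc_last]
  have Wg : (fun i => W (g i)) = ω := by
    funext i
    simp only [W, g, Fin.snoc_castSucc]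
  have W0 : W i₀ = γ := by simp only [W, i₀, Fin.snoc_last]
  have W1 : W i₁ = υ := by simp only [W, i₁, Fin.snoc_castSucc, Fin.snoc_last]
  have hsum : ∑ i, W i = ∑ i, ω i + υ + γ := by
    rw [Fin.sum_univ_castSucc, Fin.sum_univ_castSucc]
    simp only [W, Fin.snoc_castSucc, Fin.snoc_last]
  let L' : IntermediateField κ Ω := IntermediateField.adjoin κ (Set.range η)
  have hηL : ∀ i, η i ∈ L' := fun i => IntermediateField.subset_adjoin _ _ ⟨i, rfl⟩
  have hvL : v ∈ L' := by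
    rw [← η1]
    exact hηL _
  have hXL : ∀ i, X₀ i ∈ L' := fun i => by
    rw [← ηg]
    exact hηL _
  have hPL : ∀ P : MvPolynomial (Fin r) κ, MvPolynomial.aeval X₀ P ∈ L' := by
    intro P
    have h1 : MvPolynomial.aeval X₀ P ∈ Algebra.adjoin κ (Set.range X₀) := by
      rw [Algebra.adjoin_range_eq_range_aeval]
      exact ⟨P, rfl⟩
    have h2 : Algebra.adjoin κ (Set.range X₀) ≤ L'.toSubalgebra :=
      Algebra.adjoin_le (by rintro _ ⟨i, rfl⟩; exact hXL i)
    exact h2 h1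
  have hKL : ∀ b : K₀, j (algebraMap K₀ L b) ∈ L' := by
    intro b
    let ι : K₀ →ₐ[κ] Ω := j.comp (IsScalarTower.toAlgHom κ K₀ L)
    have h1 : (IntermediateField.adjoin κ (Set.range x)).map ι ≤ L' := by
      rw [IntermediateField.adjoin_map, IntermediateField.adjoin_le_iff]
      rintro _ ⟨_, ⟨i, rfl⟩, rfl⟩
      have h2 : ι (x i) = X₀ i := by rw [hX₀]; rfl
      rw [h2]
      exact hXL i
    have h3 : b ∈ IntermediateField.adjoin κ (Set.range x) := by
      rw [hK₀]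
      exact IntermediateField.mem_top
    exact h1 ⟨b, h3, rfl⟩
  have haL : j a ∈ L' := by
    have h1 : j a = (v ^ p)⁻¹ := by rw [hv, inv_inv]
    rw [h1]
    exact inv_mem (pow_mem hvL _)
  have hwL : j w ∈ L' := by
    have h1 : j w = (Y * q' ^ (m - 1) - G') / (q' ^ m * v ^ N) := by
      rw [eq_div_iff (mul_ne_zero (pow_ne_zero _ hq0) (pow_ne_zero _ hv0)), hY']
      ring
    rw [h1]
    have hq'L : q' ∈ L' := by
      rw [hq']
      exact hPL _
    have hG'L : G' ∈ L' := by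
      rw [hG']
      exact hPL _
    have hYL : Y ∈ L' := by
      rw [← η0]
      exact hηL _
    exact div_mem (sub_mem (mul_mem hYL (pow_mem hq'L _)) hG'L)
      (mul_mem (pow_mem hq'L _) (pow_mem hvL _))
  have hLL : ∀ b : L, algebraMap L Ω b ∈ L' := by
    intro b
    let E' : IntermediateField K₀ L :=
      (L'.comap j).toSubfield.toIntermediateField fun b => hKL b
    have h1 : IntermediateField.adjoin K₀ {a, w} ≤ E' := by
      rw [IntermediateField.adjoin_le_iff]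
      rintro b (rfl | hb)
      · exact haL
      · rw [Set.mem_singleton_iff.1 hb]
        exact hwL
    have h2 : b ∈ E' := h1 (by rw [hgen]; exact IntermediateField.mem_top)
    exact h2
  refine uniruled_of_sub L' hLL ?_
  have htL : Algebra.trdeg κ L' = Algebra.trdeg κ L := trdeg_of_sub L' hLL
  -- the transcendence degree
  have h1' : (1 : Cardinal) ≤ Algebra.trdeg K₀ L := by
    rw [Cardinal.one_le_iff_ne_zero, trdeg_ne_zero_iff]
    exact ⟨a, ha⟩
  have hEss : Algebra.EssFiniteType K₀ L := by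
    rw [← IntermediateField.fg_top_iff, ← hgen]
    exact IntermediateField.fg_adjoin_of_finite (Set.toFinite _)
  have hfin : Algebra.trdeg K₀ L < Cardinal.aleph0 := trdeg_lt_aleph0 K₀ L
  have hadd' := _root_.trdeg_add_eq κ K₀ (A := L)
  have hfin₀ : Algebra.trdeg κ K₀ < Cardinal.aleph0 := by
    refine lt_of_le_of_lt (self_le_add_right _ 1) ?_
    rw [htd]
    exact Cardinal.natCast_lt_aleph0
  have hfin' : Algebra.trdeg κ L' < Cardinal.aleph0 := by
    rw [htL, ← hadd']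
    exact Cardinal.add_lt_aleph0 hfin₀ hfin
  -- the coordinates
  let ξ : Fin (r + 1 + 1) → L' := fun i => ⟨η i, hηL i⟩
  have hcoe : ∀ P : MvPolynomial (Fin (r + 1 + 1)) κ, ((MvPolynomial.aeval ξ P : L') : Ω) =
      MvPolynomial.aeval η P := fun P =>
    (MvPolynomial.aeval_algebraMap_apply (A := L') (B := Ω) ξ P).symm
  have hren : ∀ P : MvPolynomial (Fin r) κ, MvPolynomial.aeval η (MvPolynomial.rename g P) =
      MvPolynomial.aeval X₀ P := by
    intro P
    rw [MvPolynomial.aeval_rename]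
    congr 2
    ext i
    exact ηg i
  have hgen' : IntermediateField.adjoin κ (Set.range ξ) = ⊤ := by
    apply IntermediateField.lift_injective L'
    rw [IntermediateField.lift_adjoin, IntermediateField.lift_top, ← Set.range_comp]
    rfl
  have hgi : ∀ i, g i ≠ i₀ := fun i h => Fin.castSucc_ne_last _ h
  have hvr : ∀ P : MvPolynomial (Fin r) κ, i₀ ∉ (MvPolynomial.rename g P).vars := by
    intro P hr
    have := MvPolynomial.vars_rename g P hr
    rw [Finset.mem_image] at this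
    obtain ⟨j, -, hj⟩ := this
    exact hgi j hj
  have hi : i₁ ≠ i₀ := fun h => Fin.castSucc_ne_last _ h
  have hvX : ∀ n, i₀ ∉ ((MvPolynomial.X i₁ : MvPolynomial (Fin (r + 1 + 1)) κ) ^ n).vars := by
    intro n h
    have := MvPolynomial.vars_pow _ n h
    rw [MvPolynomial.vars_X, Finset.mem_singleton] at this
    exact hi this.symm
  have hvmul : ∀ P P' : MvPolynomial (Fin (r + 1 + 1)) κ, i₀ ∉ P.vars → i₀ ∉ P'.vars →
      i₀ ∉ (P * P').vars := by
    intro P P' h1 h2 h3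
    rcases Finset.mem_union.1 (MvPolynomial.vars_mul P P' h3) with h | h
    · exact h1 h
    · exact h2 h
  have hvpow : ∀ (P : MvPolynomial (Fin (r + 1 + 1)) κ) (n : ℕ), i₀ ∉ P.vars →
      i₀ ∉ (P ^ n).vars := fun P n h1 h2 => h1 (MvPolynomial.vars_pow _ n h2)
  have hvadd : ∀ P P' : MvPolynomial (Fin (r + 1 + 1)) κ, i₀ ∉ P.vars → i₀ ∉ P'.vars →
      i₀ ∉ (P + P').vars := by
    intro P P' h1 h2 h3
    rcases Finset.mem_union.1 (MvPolynomial.vars_add_subset P P' h3) with h | h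
    · exact h1 h
    · exact h2 h
  have hwr : ∀ (P : MvPolynomial (Fin r) κ) (E : ℕ),
      MvPolynomial.weightedTotalDegree ω P ≤ E →
      MvPolynomial.weightedTotalDegree W (MvPolynomial.rename g P) ≤ E := by
    intro P E hP
    exact wle_rename W g hg P E (by rw [Wg]; exact hP)
  obtain ⟨q₁, hq₁⟩ : ∃ q₁ : MvPolynomial (Fin (r + 1 + 1)) κ, q₁ = MvPolynomial.rename g q :=
    ⟨_, rfl⟩
  have hq₁w : MvPolynomial.weightedTotalDegree W q₁ ≤ τ := by
    rw [hq₁]
    exact hwr q τ hτ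
  have hQw : MvPolynomial.weightedTotalDegree W (q₁ * MvPolynomial.X i₁ ^ N) ≤ τ + N * υ := by
    refine wle_mul _ _ _ _ _ hq₁w ((wle_X_pow W i₁ N).trans ?_)
    rw [W1]
  have hv₁ : i₀ ∉ q₁.vars := by
    rw [hq₁]
    exact hvr q
  have hvalq : MvPolynomial.aeval η q₁ = q' := by rw [hq₁, hren, hq']
  refine uniruled_hom p ξ hgen' hfin' ?_ i₀ (MvPolynomial.rename g g₀) ?_ (hvr g₀) ?_
    (q₁ * MvPolynomial.X i₁ ^ N)
    (MvPolynomial.C (-1) * (q₁ ^ (p - m) * MvPolynomial.X i₁ ^ (N * (p - 1)) *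
      MvPolynomial.rename g G + MvPolynomial.rename g H) +
        MvPolynomial.X i₁ ^ (p * N) * MvPolynomial.rename g F')
    (hvmul _ _ hv₁ (hvX N)) ?_ ?_ ?_ W d D ?_ ?_ ?_ ?_ ?_ ?_
  · rw [htL, ← hadd']
    push_cast
    rw [← htd, add_assoc, add_assoc, add_assoc]
    gcongr
    norm_num
  · intro h
    exact hg0 (MvPolynomial.rename_injective g hg (by rw [h, map_zero]))
  · apply Subtype.ext
    rw [hcoe, hren, hval, hg₀, map_zero, map_zero]
    rfl
  · refine hvadd _ _ (hvmul _ _ ?_ (hvadd _ _ (hvmul _ _ (hvmul _ _ (hvpow _ _ hv₁) (hvX _))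
      (hvr G)) (hvr H))) (hvmul _ _ (hvX _) (hvr F'))
    rw [MvPolynomial.vars_C]
    exact Finset.notMem_empty _
  · intro h
    have h2 := congrArg Subtype.val h
    rw [hcoe, map_mul, map_pow, hvalq, MvPolynomial.aeval_X, η1] at h2
    exact mul_ne_zero hq0 (pow_ne_zero _ hv0) h2
  · apply Subtype.ext
    have hl : ((ξ i₀ ^ p - MvPolynomial.aeval ξ (q₁ * MvPolynomial.X i₁ ^ N) ^ (p - 1) * ξ i₀ :
        L') : Ω) = Y ^ p - (q' * v ^ N) ^ (p - 1) * Y := by
      show (η i₀) ^ p - ((MvPolynomial.aeval ξ (q₁ * MvPolynomial.X i₁ ^ N) : L') : Ω) ^ (p - 1) *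
        η i₀ = _
      rw [hcoe, η0, map_mul, map_pow, hvalq, MvPolynomial.aeval_X, η1]
    rw [hl, hkey, hcoe]
    simp only [map_mul, map_add, map_pow, MvPolynomial.aeval_X, hren,
      hvalq, η1, ← hG', map_neg, map_one]
    ring
  · exact hwr g₀ d h0
  · refine wle_add _ _ _ _ ?_ ?_
    swap
    · refine le_trans (wle_mul _ _ _ (p * N * υ) _ ?_ (hwr F' _ le_rfl)) (by omega)
      refine (wle_X_pow W i₁ _).trans ?_
      rw [W1]
    have h1 := wle_mul W (MvPolynomial.C (-1 : κ)) (q₁ ^ (p - m) *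
      MvPolynomial.X i₁ ^ (N * (p - 1)) * MvPolynomial.rename g G + MvPolynomial.rename g H) 0 D
      (wle_C W _) ?_
    · rwa [zero_add] at h1
    · refine wle_add _ _ _ _ ?_ (hwr H D hH)
      refine le_trans (wle_mul _ _ _ _ _ (wle_mul _ _ _ ((p - m) * τ) (N * (p - 1) * υ)
        ((wle_pow W q₁ (p - m)).trans (Nat.mul_le_mul_left _ hq₁w)) ?_) (hwr G _ le_rfl)) hG
      refine (wle_X_pow W i₁ _).trans ?_
      rw [W1]
  · rw [W0]
    exact hγ
  · rw [W0]
    exact le_trans (Nat.add_le_add_right (Nat.mul_le_mul_left _ hQw) _) hQ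
  · exact le_trans (Nat.add_le_add_right (Nat.mul_le_mul_left _ hQw) _) hQ'
  · rw [hsum]
    omega

end

end Pool.Agent.FRT
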