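import Pool.Agent.FRT.P1
import Pool.Agent.FRB.X4M
import Pool.Agent.ADH.T9c

/-!
# Mixed extensions of characteristic `p`: the cyclic case
-/

set_option autoImplicit false

namespace Pool.Agent.FRT

open Polynomial Pool.Agent.TBR Pool.Agent.TUQ Pool.Agent.UQ Pool.Agent.WLD Pool.Agent.ADT
  Pool.Agent.ADH Pool.Agent.FRB

universe u

section

variable {k M : Type u} [Field k] [Field M] [Algebra k M]

/-- the families: `K₀ = E(x_1, …, x_r)`, `g(x) = 0`, `E / k` finitely generated of transcendence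
degree `3 - r`, `Z ^ N = (G / q ^ m) ^ p + H / q ^ p`, `Y ^ p - Y = F / q ^ p`, and the equations
`g = 0`, `U ^ p - (q v ^ N) ^ (p - 1) U = - (q ^ (p - m) v ^ (N (p - 1)) G + H) + F v ^ (p N)` have
degrees at most `d` and `D` for weights `ω` of the `x_i`, `υ` of `v` and `γ` of `U` whose sum is at
least `d + D` -/
def FamP (K₀ : IntermediateField k M) (Y Z : M) (p N : ℕ) : Prop :=
  ∃ (r : ℕ) (E : IntermediateField k M) (x : Fin r → M) (g G H q F : MvPolynomial (Fin r) E)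
    (ω : Fin r → ℕ) (m υ γ τ d D : ℕ),
    E.FG ∧ K₀ = E ⊔ IntermediateField.adjoin k (Set.range x) ∧ Algebra.trdeg k E + r = 3 ∧
      g ≠ 0 ∧ MvPolynomial.aeval x g = 0 ∧ MvPolynomial.aeval x q ≠ 0 ∧ 1 ≤ m ∧ m ≤ p ∧
      Z ^ N * MvPolynomial.aeval x q ^ (p * m) =
        MvPolynomial.aeval x G ^ p +
          MvPolynomial.aeval x q ^ (p * (m - 1)) * MvPolynomial.aeval x H ∧
      (Y ^ p - Y) * MvPolynomial.aeval x q ^ p = MvPolynomial.aeval x F ∧
      MvPolynomial.weightedTotalDegree ω g ≤ d ∧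
      MvPolynomial.weightedTotalDegree ω q ≤ τ ∧
      (p - m) * τ + N * (p - 1) * υ + MvPolynomial.weightedTotalDegree ω G ≤ D ∧
      MvPolynomial.weightedTotalDegree ω H ≤ D ∧
      MvPolynomial.weightedTotalDegree ω F + p * N * υ ≤ D ∧ p * γ ≤ D ∧
      (p - 1) * (τ + N * υ) + γ ≤ D ∧ p * (τ + N * υ) + 1 ≤ D ∧ d + D ≤ ∑ i, ω i + υ + γ

/-- the threefolds of the families are uniruled -/
theorem uniruled_famP [IsAlgClosed M] (p : ℕ) [Fact p.Prime] [CharP k p]
    (K₀ : IntermediateField k M)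
    (htd : Algebra.trdeg k M = 2) (hal : ∀ x : M, IsAlgebraic K₀ x) (N : ℕ) (hN : 0 < N)
    (Y Z : M) (YK : Y ^ p - Y ∈ K₀) (ZK : Z ^ N ∈ K₀) (Z0 : Z ≠ 0)
    (L : Type u) [Field L] [Algebra k L] [Algebra K₀ L] [IsScalarTower k K₀ L] (a w : L)
    (ha : Transcendental K₀ a)
    (hw : w ^ p - w + algebraMap K₀ L ⟨Z ^ N, ZK⟩ * a ^ N = algebraMap K₀ L ⟨Y ^ p - Y, YK⟩)
    (hgen : IntermediateField.adjoin K₀ {a, w} = ⊤) (hF : FamP K₀ Y Z p N) : Uniruled k L := by
  obtain ⟨r, E, x, g, G, H, q, F, ω, m, υ, γ, τ, d, D, hEfg, hK₀, htr, hg0, hg, hq, hm, hmp, hZ,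
    hY, t0, t1, t2, t3, t4, t5, t6, t7, t8⟩ := hF
  have hEC : CharP E p := charP_of_injective_algebraMap (algebraMap k E).injective p
  have hle : E ≤ K₀ := by
    rw [hK₀]
    exact le_sup_left
  have hxK : ∀ i, x i ∈ K₀ := fun i => by
    rw [hK₀]
    exact (le_sup_right : IntermediateField.adjoin k (Set.range x) ≤ _)
      (IntermediateField.subset_adjoin _ _ ⟨i, rfl⟩)
  let ι : E →ₐ[k] K₀ := IntermediateField.inclusion hle
  let algE : Algebra E K₀ := ι.toRingHom.toAlgebra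
  let algL : Algebra E L := ((algebraMap K₀ L).comp ι.toRingHom).toAlgebra
  have tow1 : IsScalarTower E K₀ L := IsScalarTower.of_algebraMap_eq (fun _ => rfl)
  have tow2 : IsScalarTower k E K₀ := IsScalarTower.of_algebraMap_eq (fun b => (ι.commutes b).symm)
  have tow3 : IsScalarTower k E L := IsScalarTower.of_algebraMap_eq (fun b => by
    rw [IsScalarTower.algebraMap_apply k K₀ L, ← ι.commutes b]
    rfl)
  have tow4 : IsScalarTower E K₀ M := IsScalarTower.of_algebraMap_eq (fun _ => rfl)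
  let ξ : Fin r → K₀ := fun i => ⟨x i, hxK i⟩
  have hval : ∀ P : MvPolynomial (Fin r) E, ((MvPolynomial.aeval ξ P : K₀) : M) =
      MvPolynomial.aeval x P := fun P =>
    (MvPolynomial.aeval_algebraMap_apply (A := K₀) (B := M) ξ P).symm
  have hgen₀ : IntermediateField.adjoin E (Set.range ξ) = ⊤ := by
    rw [eq_top_iff]
    intro b _
    let N' : IntermediateField k M :=
      ((IntermediateField.adjoin E (Set.range ξ)).restrictScalars k).map K₀.val
    have hE : E ≤ N' := fun c hc => ⟨⟨c, hle hc⟩,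
      (IntermediateField.adjoin E (Set.range ξ)).algebraMap_mem ⟨c, hc⟩, rfl⟩
    have hx : IntermediateField.adjoin k (Set.range x) ≤ N' := by
      rw [IntermediateField.adjoin_le_iff]
      rintro _ ⟨i, rfl⟩
      exact ⟨ξ i, IntermediateField.subset_adjoin E _ ⟨i, rfl⟩, rfl⟩
    have hb : (b : M) ∈ E ⊔ IntermediateField.adjoin k (Set.range x) := by
      rw [← hK₀]
      exact b.2
    obtain ⟨c, hc, hcb⟩ := (sup_le hE hx) hb
    have e : c = b := Subtype.ext hcb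
    rw [← e]
    exact hc
  have htd₀ : Algebra.trdeg k K₀ = 2 := by
    have h1 : Algebra.IsAlgebraic K₀ M := ⟨hal⟩
    have h3 := trdeg_add_eq k K₀ (A := M)
    rwa [trdeg_eq_zero_iff.2 h1, add_zero, htd] at h3
  have hlt : (2 : Cardinal.{u}) < Cardinal.aleph0 := by
    exact_mod_cast Cardinal.natCast_lt_aleph0 (n := 2)
  have h5 := trdeg_add_eq k E (A := K₀)
  rw [htd₀] at h5
  have hE2 : Algebra.trdeg k E ≤ 2 := by
    rw [← h5]
    exact self_le_add_right _ _
  have htdE : Algebra.trdeg E K₀ + 1 = r := by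
    have h6 : Algebra.trdeg k E + (Algebra.trdeg E K₀ + 1) = Algebra.trdeg k E + r := by
      rw [htr, ← add_assoc, h5]
      norm_num
    exact Cardinal.eq_of_add_eq_add_left h6 (hE2.trans_lt hlt)
  have hEfg' : (⊤ : IntermediateField k E).FG := by
    rw [IntermediateField.fg_top_iff]
    exact IntermediateField.essFiniteType_iff.2 hEfg
  have hq' : MvPolynomial.aeval ξ q ≠ 0 := by
    intro h
    apply hq
    rw [← hval, h]
    rfl
  have hg' : MvPolynomial.aeval ξ g = 0 := by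
    apply Subtype.ext
    rw [hval, hg]
    rfl
  have hZ' : (⟨Z ^ N, ZK⟩ : K₀) * MvPolynomial.aeval ξ q ^ (p * m) =
      MvPolynomial.aeval ξ G ^ p +
        MvPolynomial.aeval ξ q ^ (p * (m - 1)) * MvPolynomial.aeval ξ H := by
    apply Subtype.ext
    show Z ^ N * ((MvPolynomial.aeval ξ q : K₀) : M) ^ (p * m) =
      ((MvPolynomial.aeval ξ G : K₀) : M) ^ p +
        ((MvPolynomial.aeval ξ q : K₀) : M) ^ (p * (m - 1)) *
          ((MvPolynomial.aeval ξ H : K₀) : M)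
    rw [hval, hval, hval, hZ]
  have hY' : (⟨Y ^ p - Y, YK⟩ : K₀) * MvPolynomial.aeval ξ q ^ p = MvPolynomial.aeval ξ F := by
    apply Subtype.ext
    show (Y ^ p - Y) * ((MvPolynomial.aeval ξ q : K₀) : M) ^ p =
      ((MvPolynomial.aeval ξ F : K₀) : M)
    rw [hval, hval, hY]
  have hδ : (⟨Z ^ N, ZK⟩ : K₀) ≠ 0 := fun h => pow_ne_zero N Z0 (congrArg Subtype.val h)
  exact Uniruled.tower (E := E) hEfg' (fam_uniPM (κ := E) p N m hN hm hmp ξ hgen₀ htdE g hg0 hg'
    G H q F hq' ⟨Z ^ N, ZK⟩ ⟨Y ^ p - Y, YK⟩ hδ hZ' hY' a w ha hw hgen ω υ γ τ d D t0 t1 t2 t3 t4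
    t5 t6 t7 t8)

/-- the Kummer extension -/
theorem emt_Z [IsAlgClosed M] (p : ℕ) [Fact p.Prime] [CharP k p] (hp3 : 3 ≤ p)
    (K₀ : IntermediateField k M) (hfg : K₀.FG) (htd : Algebra.trdeg k M = 2)
    (hal : ∀ x : M, IsAlgebraic K₀ x) (N : ℕ) (hN : 0 < N) (hNk : (N : k) ≠ 0) (Y Z : M)
    (ZK : Z ^ N ∈ K₀) (Z0 : Z ≠ 0) (irrZ : Irreducible (X ^ N - C (⟨Z ^ N, ZK⟩ : K₀)))
    (h : FamP K₀ Y Z p N) (h1 : Emt K₀) : Emt (KZ K₀ Z) := by
  classical
  obtain ⟨n, hn⟩ := exists_inv_mod (k := k) p N hNk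
  obtain ⟨hb, hbds⟩ := bc_gen (k := k) (M := M) p hp3 N (N * n) hNk hn
  have hX1 : (X + 1 : k[X]) ≠ 0 := by
    rw [← C_1]
    exact X_add_C_ne_zero 1
  have hB₁ : ((X ^ p - X) * (X + 1) ^ (N * n) : k[X]) ≠ 0 :=
    mul_ne_zero (FiniteField.X_pow_card_sub_X_ne_zero k (by omega)) (pow_ne_zero _ hX1)
  have hδ : (⟨Z ^ N, ZK⟩ : K₀) ≠ 0 := fun h => pow_ne_zero N Z0 (congrArg Subtype.val h)
  obtain ⟨L, i1, i2, i3, i4, a, w, ha, hw, hgen⟩ := ext_exists N hN
    ((X ^ p - X) * (X + 1) ^ (N * n) : k[X]) 1 hB₁ (⟨Z ^ N, ZK⟩ : K₀)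
  have huni : Uniruled k L := by
    obtain ⟨r, E, x, g, G, H, q, F, ω, m, υ, γ, τ, d, D, hEfg, hK₀, htr, hg0, hg, hq, hm, hmp, hZ,
      -, t0, t1, t2, t3, -, t5, t6, t7, t8⟩ := h
    have hEC : CharP E p := charP_of_injective_algebraMap (algebraMap k E).injective p
    have hle : E ≤ K₀ := by
      rw [hK₀]
      exact le_sup_left
    have hxK : ∀ i, x i ∈ K₀ := fun i => by
      rw [hK₀]
      exact (le_sup_right : IntermediateField.adjoin k (Set.range x) ≤ _)
        (IntermediateField.subset_adjoin _ _ ⟨i, rfl⟩)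
    let ι : E →ₐ[k] K₀ := IntermediateField.inclusion hle
    let algE : Algebra E K₀ := ι.toRingHom.toAlgebra
    let algL : Algebra E L := ((algebraMap K₀ L).comp ι.toRingHom).toAlgebra
    have tow1 : IsScalarTower E K₀ L := IsScalarTower.of_algebraMap_eq (fun _ => rfl)
    have tow2 : IsScalarTower k E K₀ := IsScalarTower.of_algebraMap_eq (fun b => (ι.commutes b).symm)
    have tow3 : IsScalarTower k E L := IsScalarTower.of_algebraMap_eq (fun b => by
      rw [IsScalarTower.algebraMap_apply k K₀ L, ← ι.commutes b]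
      rfl)
    have tow4 : IsScalarTower E K₀ M := IsScalarTower.of_algebraMap_eq (fun _ => rfl)
    let ξ : Fin r → K₀ := fun i => ⟨x i, hxK i⟩
    have hval : ∀ P : MvPolynomial (Fin r) E, ((MvPolynomial.aeval ξ P : K₀) : M) =
        MvPolynomial.aeval x P := fun P =>
      (MvPolynomial.aeval_algebraMap_apply (A := K₀) (B := M) ξ P).symm
    have hgen₀ : IntermediateField.adjoin E (Set.range ξ) = ⊤ := by
      rw [eq_top_iff]
      intro b _
      let N' : IntermediateField k M :=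
        ((IntermediateField.adjoin E (Set.range ξ)).restrictScalars k).map K₀.val
      have hE : E ≤ N' := fun c hc => ⟨⟨c, hle hc⟩,
        (IntermediateField.adjoin E (Set.range ξ)).algebraMap_mem ⟨c, hc⟩, rfl⟩
      have hx : IntermediateField.adjoin k (Set.range x) ≤ N' := by
        rw [IntermediateField.adjoin_le_iff]
        rintro _ ⟨i, rfl⟩
        exact ⟨ξ i, IntermediateField.subset_adjoin E _ ⟨i, rfl⟩, rfl⟩
      have hb : (b : M) ∈ E ⊔ IntermediateField.adjoin k (Set.range x) := by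
        rw [← hK₀]
        exact b.2
      obtain ⟨c, hc, hcb⟩ := (sup_le hE hx) hb
      have e : c = b := Subtype.ext hcb
      rw [← e]
      exact hc
    have htd₀ : Algebra.trdeg k K₀ = 2 := by
      have h1 : Algebra.IsAlgebraic K₀ M := ⟨hal⟩
      have h3 := trdeg_add_eq k K₀ (A := M)
      rwa [trdeg_eq_zero_iff.2 h1, add_zero, htd] at h3
    have hlt : (2 : Cardinal.{u}) < Cardinal.aleph0 := by
      exact_mod_cast Cardinal.natCast_lt_aleph0 (n := 2)
    have h5 := trdeg_add_eq k E (A := K₀)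
    rw [htd₀] at h5
    have hE2 : Algebra.trdeg k E ≤ 2 := by
      rw [← h5]
      exact self_le_add_right _ _
    have htdE : Algebra.trdeg E K₀ + 1 = r := by
      have h6 : Algebra.trdeg k E + (Algebra.trdeg E K₀ + 1) = Algebra.trdeg k E + r := by
        rw [htr, ← add_assoc, h5]
        norm_num
      exact Cardinal.eq_of_add_eq_add_left h6 (hE2.trans_lt hlt)
    have hEfg' : (⊤ : IntermediateField k E).FG := by
      rw [IntermediateField.fg_top_iff]
      exact IntermediateField.essFiniteType_iff.2 hEfg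
    have hq' : MvPolynomial.aeval ξ q ≠ 0 := by
      intro h
      apply hq
      rw [← hval, h]
      rfl
    have hg' : MvPolynomial.aeval ξ g = 0 := by
      apply Subtype.ext
      rw [hval, hg]
      rfl
    have hZ' : (⟨Z ^ N, ZK⟩ : K₀) * MvPolynomial.aeval ξ q ^ (p * m) =
        MvPolynomial.aeval ξ G ^ p +
          MvPolynomial.aeval ξ q ^ (p * (m - 1)) * MvPolynomial.aeval ξ H := by
      apply Subtype.ext
      show Z ^ N * ((MvPolynomial.aeval ξ q : K₀) : M) ^ (p * m) =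
        ((MvPolynomial.aeval ξ G : K₀) : M) ^ p +
          ((MvPolynomial.aeval ξ q : K₀) : M) ^ (p * (m - 1)) *
            ((MvPolynomial.aeval ξ H : K₀) : M)
      rw [hval, hval, hval, hZ]
    have hXE : (X + 1 : E[X]) ≠ 0 := by
      rw [← C_1]
      exact X_add_C_ne_zero 1
    have hwE : w ^ N * aeval a ((X ^ p - X) * (X + 1) ^ (N * n) : E[X]) =
        algebraMap K₀ L ⟨Z ^ N, ZK⟩ * aeval a (1 : E[X]) := by
      have h9 := hw
      simp only [map_mul, map_sub, map_pow, map_add, map_one, aeval_X] at h9 ⊢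
      exact h9
    exact Uniruled.tower (E := E) hEfg' (fam_uniP (κ := E) p N m hN hm hmp
      ((X ^ p - X) * (X + 1) ^ (N * n)) 1 ((X + 1) ^ n) 1
      one_ne_zero (pow_ne_zero _ hXE) one_ne_zero (by ring) ξ hgen₀ htdE g hg0 hg' G H q hq'
      ⟨Z ^ N, ZK⟩ hδ hZ' a w ha hwE hgen ω υ γ τ d D t0 t1 t2 t3 t5 t6 t7 t8)
  refine KTW.emt_final K₀ hfg htd hal N _ _ hb Z Z0 ZK irrZ L a w ha hw hgen huni fun e he => ?_
  have hNp : Nat.gcd N p = 1 := by
    rw [Nat.gcd_comm]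
    refine (Nat.Prime.coprime_iff_not_dvd Fact.out).2 fun h => ?_
    exact hNk ((CharP.cast_eq_zero_iff k p N).2 h)
  have hgcd : Nat.gcd N e = 1 := by
    rcases hbds e he with rfl | rfl | rfl
    · exact Nat.gcd_one_right N
    · rw [Nat.gcd_add_mul_left_right]
      exact Nat.gcd_one_right N
    · rw [Nat.gcd_add_mul_left_right]
      exact hNp
  rw [hgcd, Nat.div_one]
  have h9 : K₀ ⊔ IntermediateField.adjoin k {Z ^ N} = K₀ := by
    refine sup_eq_left.2 ?_
    rw [IntermediateField.adjoin_le_iff]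
    rintro y rfl
    exact ZK
  rw [h9]
  exact h1

/-- the cyclic case -/
theorem emt_cyclicP [IsAlgClosed M] (p : ℕ) [Fact p.Prime] [CharP k p]
    (K₀ : IntermediateField k M) (hfg : K₀.FG) (htd : Algebra.trdeg k M = 2)
    (hal : ∀ x : M, IsAlgebraic K₀ x) (N : ℕ) (hN : 2 ≤ N) (hNk : (N : k) ≠ 0)
    (hμ : ∀ ζ : M, ζ ^ N = 1 → ζ ∈ K₀) (Y Z : M) (YK : Y ^ p - Y ∈ K₀) (ZK : Z ^ N ∈ K₀)
    (Z0 : Z ≠ 0) (irrZ : Irreducible (X ^ N - C (⟨Z ^ N, ZK⟩ : K₀))) (h : FamP K₀ Y Z p N)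
    (h1 : Emt K₀) (h2 : Emt (KZ K₀ Y)) (h3 : Emt (KZ K₀ Z)) : Emt (KYZ K₀ Y Z) := by
  by_cases hY : Y ∈ K₀
  · have h4 : KZ K₀ Y = K₀ := by
      refine sup_eq_left.2 ?_
      rw [IntermediateField.adjoin_le_iff]
      rintro y rfl
      exact hY
    show Emt (KZ (KZ K₀ Y) Z)
    rw [h4]
    exact h3
  have haev : ∀ {A : Type u} [CommRing A] [Algebra k A] (b : A),
      aeval b (X ^ p - X : k[X]) = b ^ p - b := fun b => by
    rw [map_sub, map_pow, aeval_X]
  have zN : aeval Y (X ^ p - X : k[X]) ∈ K₀ := by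
    rw [haev]
    exact YK
  have irrY : Irreducible (X ^ p - X - C (⟨Y ^ p - Y, YK⟩ : K₀)) := by
    have h4 := irr_of_notMem p K₀ Y hY zN
    have h5 : (⟨aeval Y (X ^ p - X : k[X]), zN⟩ : K₀) = ⟨Y ^ p - Y, YK⟩ := Subtype.ext (haev Y)
    rw [h5, Polynomial.map_sub, Polynomial.map_pow, map_X] at h4
    exact h4
  obtain ⟨L, i1, i2, i3, i4, v, w, hv, hw, hgen⟩ := exists_threefoldM (k := k) p
    (Fact.out : p.Prime).two_le N (⟨Z ^ N, ZK⟩ : K₀) ⟨Y ^ p - Y, YK⟩
  obtain ⟨n, L', h4, h5⟩ := finalM K₀ hfg htd hal p N Fact.out inferInstance hN hNk hμ Y Z YK ZK Z0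
    irrY irrZ L v w hv hw hgen
    (uniruled_famP p K₀ htd hal N (by omega) Y Z YK ZK Z0 L v w hv hw hgen h)
  refine emt_of_inj (K' := KYZ K₀ Y Z) (fun ℓ _ => ⟨MonoidHom.id _, Function.injective_id⟩) L' h5
    fun j => ?_
  rcases (h4 j).1 with h6 | h6 | h6 | h6
  · exact emt_two h6 (h4 j).2
  · rw [h6]
    exact h1
  · rw [h6]
    exact h2
  · rw [h6]
    exact h3

end

end Pool.Agent.FRT
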